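import Mathlib

set_option autoImplicit false

namespace Pool.Agent.H8S4

open Set Filter Topology

/-- A function which cannot cross the level `l` downwards stays above it. -/
theorem barrier {f f' : ℝ → ℝ} {s t l : ℝ} (hst : s ≤ t)
    (hd : ∀ τ ∈ Icc s t, HasDerivAt f (f' τ) τ) (hs : l ≤ f s)
    (hl : ∀ τ ∈ Ico s t, f τ = l → 0 < f' τ) : l ≤ f t := by
  have h := image_le_of_deriv_right_lt_deriv_boundary' (f := fun τ => - f τ)
    (f' := fun τ => - f' τ) (a := s) (b := t) (B := fun _ => -l) (B' := fun _ => 0)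
    (fun τ hτ => (hd τ hτ).neg.continuousAt.continuousWithinAt)
    (fun τ hτ => (hd τ ⟨hτ.1, hτ.2.le⟩).neg.hasDerivWithinAt)
    (by simpa using hs) continuousOn_const
    (fun τ _ => hasDerivWithinAt_const _ _ _)
    (fun τ hτ he => by
      have := hl τ hτ (by simpa using he)
      simpa using this)
  have := h (right_mem_Icc.2 hst)
  simpa using this

/-- Gronwall: `f' ≤ K f` and `f s ≤ 0` imply `f t ≤ 0`. -/
theorem gron {f f' : ℝ → ℝ} {s t K : ℝ} (hst : s ≤ t)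
    (hd : ∀ τ ∈ Icc s t, HasDerivAt f (f' τ) τ) (hs : f s ≤ 0)
    (hl : ∀ τ ∈ Ioo s t, f' τ ≤ K * f τ) : f t ≤ 0 := by
  have hg : ∀ τ ∈ Icc s t, HasDerivAt (fun r => f r * Real.exp (-K * r))
      (f' τ * Real.exp (-K * τ) + f τ * (Real.exp (-K * τ) * (-K))) τ := by
    intro τ hτ
    have h1 : HasDerivAt (fun r : ℝ => -K * r) (-K) τ := by
      simpa using (hasDerivAt_id τ).const_mul (-K)
    exact (hd τ hτ).mul h1.exp
  have hanti : AntitoneOn (fun r => f r * Real.exp (-K * r)) (Icc s t) := by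
    apply antitoneOn_of_deriv_nonpos (convex_Icc s t)
    · intro τ hτ; exact (hg τ hτ).continuousAt.continuousWithinAt
    · intro τ hτ
      rw [interior_Icc] at hτ
      exact (hg τ ⟨hτ.1.le, hτ.2.le⟩).differentiableAt.differentiableWithinAt
    · intro τ hτ
      rw [interior_Icc] at hτ
      have hτ' : τ ∈ Icc s t := ⟨hτ.1.le, hτ.2.le⟩
      rw [(hg τ hτ').deriv]
      have := hl τ hτ
      have he := Real.exp_pos (-K * τ)
      nlinarith [mul_le_mul_of_nonneg_right this he.le]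
  have h := hanti (left_mem_Icc.2 hst) (right_mem_Icc.2 hst) hst
  have he := Real.exp_pos (-K * t)
  have he' := Real.exp_pos (-K * s)
  have h2 : f t * Real.exp (-K * t) ≤ 0 := h.trans (mul_nonpos_of_nonpos_of_nonneg hs he'.le)
  by_contra hc
  push Not at hc
  exact absurd h2 (not_le.2 (mul_pos hc he))

/-- Gronwall from the open end `0`. -/
theorem gron0 {f f' : ℝ → ℝ} {t K : ℝ} (ht : 0 < t)
    (hd : ∀ τ ∈ Ioc 0 t, HasDerivAt f (f' τ) τ) (hs : Tendsto f (𝓝[>] 0) (𝓝 0))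
    (hl : ∀ τ ∈ Ioc 0 t, f' τ ≤ K * f τ) : f t ≤ 0 := by
  have key : ∀ s ∈ Ioo 0 t, f t * Real.exp (-K * t) ≤ f s * Real.exp (-K * s) := by
    intro s hs
    have hsub : Icc s t ⊆ Ioc 0 t := fun τ hτ => ⟨hs.1.trans_le hτ.1, hτ.2⟩
    have hg : ∀ τ ∈ Icc s t, HasDerivAt (fun r => f r * Real.exp (-K * r))
        (f' τ * Real.exp (-K * τ) + f τ * (Real.exp (-K * τ) * (-K))) τ := by
      intro τ hτ
      have h1 : HasDerivAt (fun r : ℝ => -K * r) (-K) τ := by
        simpa using (hasDerivAt_id τ).const_mul (-K)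
      exact (hd τ (hsub hτ)).mul h1.exp
    have hanti : AntitoneOn (fun r => f r * Real.exp (-K * r)) (Icc s t) := by
      apply antitoneOn_of_deriv_nonpos (convex_Icc s t)
      · intro τ hτ; exact (hg τ hτ).continuousAt.continuousWithinAt
      · intro τ hτ
        rw [interior_Icc] at hτ
        exact (hg τ ⟨hτ.1.le, hτ.2.le⟩).differentiableAt.differentiableWithinAt
      · intro τ hτ
        rw [interior_Icc] at hτ
        have hτ' : τ ∈ Icc s t := ⟨hτ.1.le, hτ.2.le⟩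
        rw [(hg τ hτ').deriv]
        have := hl τ (hsub hτ')
        have he := Real.exp_pos (-K * τ)
        nlinarith [mul_le_mul_of_nonneg_right this he.le]
    exact hanti (left_mem_Icc.2 hs.2.le) (right_mem_Icc.2 hs.2.le) hs.2.le
  have hlim : Tendsto (fun s => f s * Real.exp (-K * s)) (𝓝[>] 0) (𝓝 (0 * Real.exp (-K * 0))) := by
    refine hs.mul ?_
    have : ContinuousAt (fun s : ℝ => Real.exp (-K * s)) 0 := by fun_prop
    exact this.tendsto.mono_left nhdsWithin_le_nhds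
  rw [zero_mul] at hlim
  have hev : ∀ᶠ s in 𝓝[>] (0:ℝ), f t * Real.exp (-K * t) ≤ f s * Real.exp (-K * s) := by
    filter_upwards [Ioo_mem_nhdsGT ht] with s hs using key s hs
  have h2 := ge_of_tendsto hlim hev
  have he := Real.exp_pos (-K * t)
  by_contra hc
  push Not at hc
  exact absurd h2 (not_le.2 (mul_pos hc he))

/-- Singular linear equation `w' = - h w + g` with `h ≥ 1/(2t)`, `w`, `g` bounded: `w → 0`. -/
theorem singular {w h g : ℝ → ℝ} {ε M : ℝ} (hε : 0 < ε)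
    (hd : ∀ τ ∈ Ioo 0 ε, HasDerivAt w (-(h τ) * w τ + g τ) τ)
    (hh : ∀ τ ∈ Ioo 0 ε, 1 ≤ 2 * τ * h τ)
    (hw : ∀ τ ∈ Ioo 0 ε, |w τ| ≤ M) (hg : ∀ τ ∈ Ioo 0 ε, |g τ| ≤ M) :
    Tendsto w (𝓝[>] 0) (𝓝 0) := by
  have hM : 0 ≤ M := (abs_nonneg _).trans (hw (ε / 2) ⟨by positivity, by linarith⟩)
  have hF : ∀ τ ∈ Ioo 0 ε, HasDerivAt (fun r => r * (w r) ^ 2 - M ^ 2 * r ^ 2)
      ((w τ) ^ 2 + τ * (2 * w τ * (-(h τ) * w τ + g τ)) - M ^ 2 * (2 * τ)) τ := by
    intro τ hτ
    have h1 := (hasDerivAt_id τ).mul ((hd τ hτ).pow 2)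
    have h2 := ((hasDerivAt_id τ).pow 2).const_mul (M ^ 2)
    have h3 : HasDerivAt (fun r => r * (w r) ^ 2 - M ^ 2 * r ^ 2) _ τ := h1.sub h2
    refine h3.congr_deriv ?_
    simp only [Pi.pow_apply, id_eq]
    push_cast
    ring
  have hanti : AntitoneOn (fun r => r * (w r) ^ 2 - M ^ 2 * r ^ 2) (Ioo 0 ε) := by
    apply antitoneOn_of_deriv_nonpos (convex_Ioo 0 ε)
    · intro τ hτ; exact (hF τ hτ).continuousAt.continuousWithinAt
    · intro τ hτ
      rw [interior_Ioo] at hτ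
      exact (hF τ hτ).differentiableAt.differentiableWithinAt
    · intro τ hτ
      rw [interior_Ioo] at hτ
      rw [(hF τ hτ).deriv]
      have a1 := hh τ hτ
      have a2 := hw τ hτ
      have a3 := hg τ hτ
      have a4 : w τ * g τ ≤ M * M := by
        calc w τ * g τ ≤ |w τ * g τ| := le_abs_self _
          _ = |w τ| * |g τ| := abs_mul _ _
          _ ≤ M * M := mul_le_mul a2 a3 (abs_nonneg _) hM
      have a5 : 0 < τ := hτ.1
      nlinarith [mul_nonneg (sq_nonneg (w τ)) (sub_nonneg.2 a1), mul_le_mul_of_nonneg_left a4 a5.le]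
  have hle : ∀ t ∈ Ioo 0 ε, (w t) ^ 2 ≤ M ^ 2 * t := by
    intro t ht
    have hev : ∀ᶠ s in 𝓝[>] (0:ℝ), t * (w t) ^ 2 - M ^ 2 * t ^ 2 ≤ s * M ^ 2 := by
      filter_upwards [Ioo_mem_nhdsGT ht.1] with s hs
      have hs' : s ∈ Ioo 0 ε := ⟨hs.1, hs.2.trans ht.2⟩
      have h1 := hanti hs' ht hs.2.le
      simp only at h1
      have h2 : (w s) ^ 2 ≤ M ^ 2 := by
        rw [← sq_abs (w s)]
        exact pow_le_pow_left₀ (abs_nonneg _) (hw s hs') 2
      have h3 : s * (w s) ^ 2 ≤ s * M ^ 2 := mul_le_mul_of_nonneg_left h2 hs.1.le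
      nlinarith [mul_nonneg (sq_nonneg M) (sq_nonneg s)]
    have hlim : Tendsto (fun s : ℝ => s * M ^ 2) (𝓝[>] 0) (𝓝 (0 * M ^ 2)) := by
      have : ContinuousAt (fun s : ℝ => s * M ^ 2) 0 := by fun_prop
      exact this.tendsto.mono_left nhdsWithin_le_nhds
    have h4 := ge_of_tendsto hlim hev
    have h5 : t * (w t) ^ 2 ≤ t * (M ^ 2 * t) := by nlinarith
    exact le_of_mul_le_mul_left h5 ht.1
  have h6 : Tendsto (fun t => (w t) ^ 2) (𝓝[>] 0) (𝓝 0) := by
    have hlim : Tendsto (fun s : ℝ => M ^ 2 * s) (𝓝[>] 0) (𝓝 0) := by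
      have : ContinuousAt (fun s : ℝ => M ^ 2 * s) 0 := by fun_prop
      have h := this.tendsto.mono_left (nhdsWithin_le_nhds (s := Ioi 0))
      simpa using h
    refine tendsto_of_tendsto_of_tendsto_of_le_of_le' tendsto_const_nhds hlim ?_ ?_
    · exact Eventually.of_forall fun t => sq_nonneg _
    · filter_upwards [Ioo_mem_nhdsGT hε] with t ht using hle t ht
  have h7 : Tendsto (fun t => |w t|) (𝓝[>] 0) (𝓝 0) := by
    have := (Real.continuous_sqrt.tendsto 0).comp h6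
    simpa [Function.comp_def, Real.sqrt_sq_eq_abs] using this
  exact tendsto_zero_iff_abs_tendsto_zero _ |>.2 h7

end Pool.Agent.H8S4
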