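import Pool.Agent.H8S4.Frame

set_option autoImplicit false
set_option maxHeartbeats 4000000

namespace Pool.Agent.H8S4

open Set Filter Topology

theorem ric_off (a : Fin 3 → ℝ → ℝ) (t : ℝ) (j k : Option (Fin 3)) (hjk : j ≠ k) :
    Ric a t j k = 0 := by
  rcases j with _ | j <;> rcases k with _ | k
  · exact absurd rfl hjk
  · fin_cases k <;>
    simp only [Ric, Riem, Fintype.sum_option, Fin.sum_univ_three, dd, Gam, brk, eps] <;> simp
  · fin_cases j <;>
    simp only [Ric, Riem, Fintype.sum_option, Fin.sum_univ_three, dd, Gam, brk, eps] <;> simp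
  · fin_cases j <;> fin_cases k <;> first | exact absurd rfl hjk |
    (simp only [Ric, Riem, Fintype.sum_option, Fin.sum_univ_three, dd, Gam, brk, eps] ; simp)

end Pool.Agent.H8S4
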