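import Pool.Agent.H8S4.Conv

set_option autoImplicit false
set_option maxHeartbeats 4000000

namespace Pool.Agent.H8S4

open Set Filter Topology

theorem jets {f F F' F'' : ℝ → ℝ} {T t : ℝ} (ht : t ∈ Ioo 0 T) (h : ∀ r ∈ Icc 0 T, f r = F r)
    (h1 : ∀ r, HasDerivAt F (F' r) r) (h2 : ∀ r, HasDerivAt F' (F'' r) r) :
    DifferentiableAt ℝ f t ∧ DifferentiableAt ℝ (deriv f) t ∧ f t = F t ∧ deriv f t = F' t ∧
      deriv (deriv f) t = F'' t := by
  have e0 : ∀ r ∈ Ioo 0 T, f =ᶠ[𝓝 r] F := fun r hr =>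
    Filter.eventually_of_mem (Ioo_mem_nhds hr.1 hr.2) (fun x hx => h x ⟨hx.1.le, hx.2.le⟩)
  have e1 : ∀ r ∈ Ioo 0 T, HasDerivAt f (F' r) r := fun r hr => (h1 r).congr_of_eventuallyEq (e0 r hr)
  have e2 : deriv f =ᶠ[𝓝 t] F' :=
    Filter.eventually_of_mem (Ioo_mem_nhds ht.1 ht.2) (fun x hx => (e1 x hx).deriv)
  have e3 : HasDerivAt (deriv f) (F'' t) t := (h2 t).congr_of_eventuallyEq e2
  exact ⟨(e1 t ht).differentiableAt, e3.differentiableAt, h t ⟨ht.1.le, ht.2.le⟩, (e1 t ht).deriv,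
    e3.deriv⟩

theorem alg0 (ρ x y z q C D E : ℝ) (hρ : 0 < ρ) (hx : 0 < x) (hy : 0 < y) (hz : z = x + y)
    (hq : q ^ 2 = 3) (hC : q * C = x + 2 * y) (hD : q * D = 2 * x + y) (hE : q * E = y - x)
    (h : 4 * (x ^ 2 + x * y + y ^ 2) = 3) :
    ((2 * ρ * x) ^ 4 - ((2 * ρ * y) ^ 2 - (2 * ρ * z) ^ 2) ^ 2) /
      (2 * (2 * ρ * x) ^ 2 * (2 * ρ * y) ^ 2 * (2 * ρ * z) ^ 2) -
      (-(2 / ρ) * x) / (2 * ρ * x) - 2 * C / (2 * ρ * x) *
      (-(2 * D) / (2 * ρ * y) + 2 * E / (2 * ρ * z)) = 3 / ρ ^ 2 := by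
  have hz0 : 0 < z := by rw [hz]; linarith
  have h1 : C * D = (x + 2 * y) * (2 * x + y) / 3 := by
    have : q ^ 2 * (C * D) = (x + 2 * y) * (2 * x + y) := by rw [← hC, ← hD]; ring
    rw [hq] at this; linarith
  have h2 : C * E = (x + 2 * y) * (y - x) / 3 := by
    have : q ^ 2 * (C * E) = (x + 2 * y) * (y - x) := by rw [← hC, ← hE]; ring
    rw [hq] at this; linarith
  have h3 : 2 * C / (2 * ρ * x) * (-(2 * D) / (2 * ρ * y) + 2 * E / (2 * ρ * z)) =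
      (-((x + 2 * y) * (2 * x + y) / 3) / (x * y) + ((x + 2 * y) * (y - x) / 3) / (x * z)) /
        ρ ^ 2 := by
    rw [← h1, ← h2]
    field_simp
  have h4 : ((2 * ρ * x) ^ 4 - ((2 * ρ * y) ^ 2 - (2 * ρ * z) ^ 2) ^ 2) /
      (2 * (2 * ρ * x) ^ 2 * (2 * ρ * y) ^ 2 * (2 * ρ * z) ^ 2) = -(1 / (2 * y * z)) / ρ ^ 2 := by
    rw [div_eq_div_iff (by positivity) (by positivity)]
    field_simp
    subst hz
    ring
  rw [h3, h4]
  field_simp
  subst hz
  linear_combination x * h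

theorem alg1 (ρ x y z q C D E : ℝ) (hρ : 0 < ρ) (hx : 0 < x) (hy : 0 < y) (hz : z = x + y)
    (hq : q ^ 2 = 3) (hC : q * C = x + 2 * y) (hD : q * D = 2 * x + y) (hE : q * E = y - x)
    (h : 4 * (x ^ 2 + x * y + y ^ 2) = 3) :
    ((2 * ρ * y) ^ 4 - ((2 * ρ * z) ^ 2 - (2 * ρ * x) ^ 2) ^ 2) /
      (2 * (2 * ρ * y) ^ 2 * (2 * ρ * z) ^ 2 * (2 * ρ * x) ^ 2) -
      (-(2 / ρ) * y) / (2 * ρ * y) - -(2 * D) / (2 * ρ * y) *
      (2 * E / (2 * ρ * z) + 2 * C / (2 * ρ * x)) = 3 / ρ ^ 2 := by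
  have hz0 : 0 < z := by rw [hz]; linarith
  have h1 : C * D = (x + 2 * y) * (2 * x + y) / 3 := by
    have : q ^ 2 * (C * D) = (x + 2 * y) * (2 * x + y) := by rw [← hC, ← hD]; ring
    rw [hq] at this; linarith
  have h2 : D * E = (2 * x + y) * (y - x) / 3 := by
    have : q ^ 2 * (D * E) = (2 * x + y) * (y - x) := by rw [← hD, ← hE]; ring
    rw [hq] at this; linarith
  have h3 : -(2 * D) / (2 * ρ * y) * (2 * E / (2 * ρ * z) + 2 * C / (2 * ρ * x)) =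
      (-((2 * x + y) * (y - x) / 3) / (y * z) - ((x + 2 * y) * (2 * x + y) / 3) / (x * y)) /
        ρ ^ 2 := by
    rw [← h1, ← h2]
    field_simp
    ring
  have h4 : ((2 * ρ * y) ^ 4 - ((2 * ρ * z) ^ 2 - (2 * ρ * x) ^ 2) ^ 2) /
      (2 * (2 * ρ * y) ^ 2 * (2 * ρ * z) ^ 2 * (2 * ρ * x) ^ 2) = -(1 / (2 * x * z)) / ρ ^ 2 := by
    rw [div_eq_div_iff (by positivity) (by positivity)]
    field_simp
    subst hz
    ring
  rw [h3, h4]
  field_simp
  subst hz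
  linear_combination y * h

theorem alg2 (ρ x y z q C D E : ℝ) (hρ : 0 < ρ) (hx : 0 < x) (hy : 0 < y) (hz : z = x + y)
    (hq : q ^ 2 = 3) (hC : q * C = x + 2 * y) (hD : q * D = 2 * x + y) (hE : q * E = y - x)
    (h : 4 * (x ^ 2 + x * y + y ^ 2) = 3) :
    ((2 * ρ * z) ^ 4 - ((2 * ρ * x) ^ 2 - (2 * ρ * y) ^ 2) ^ 2) /
      (2 * (2 * ρ * z) ^ 2 * (2 * ρ * x) ^ 2 * (2 * ρ * y) ^ 2) -
      (-(2 / ρ) * z) / (2 * ρ * z) - 2 * E / (2 * ρ * z) *
      (2 * C / (2 * ρ * x) + -(2 * D) / (2 * ρ * y)) = 3 / ρ ^ 2 := by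
  have hz0 : 0 < z := by rw [hz]; linarith
  have h1 : C * E = (x + 2 * y) * (y - x) / 3 := by
    have : q ^ 2 * (C * E) = (x + 2 * y) * (y - x) := by rw [← hC, ← hE]; ring
    rw [hq] at this; linarith
  have h2 : D * E = (2 * x + y) * (y - x) / 3 := by
    have : q ^ 2 * (D * E) = (2 * x + y) * (y - x) := by rw [← hD, ← hE]; ring
    rw [hq] at this; linarith
  have h3 : 2 * E / (2 * ρ * z) * (2 * C / (2 * ρ * x) + -(2 * D) / (2 * ρ * y)) =
      (((x + 2 * y) * (y - x) / 3) / (x * z) - ((2 * x + y) * (y - x) / 3) / (y * z)) /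
        ρ ^ 2 := by
    rw [← h1, ← h2]
    field_simp
    ring
  have h4 : ((2 * ρ * z) ^ 4 - ((2 * ρ * x) ^ 2 - (2 * ρ * y) ^ 2) ^ 2) /
      (2 * (2 * ρ * z) ^ 2 * (2 * ρ * x) ^ 2 * (2 * ρ * y) ^ 2) = 1 / (2 * x * y) / ρ ^ 2 := by
    rw [div_eq_div_iff (by positivity) (by positivity)]
    field_simp
    subst hz
    ring
  rw [h3, h4]
  field_simp
  subst hz
  linear_combination (-(x + y)) * h

theorem algn (ρ x y z : ℝ) (hρ : 0 < ρ) (hx : 0 < x) (hy : 0 < y) (hz : 0 < z) :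
    -(-(2 / ρ) * x / (2 * ρ * x) + -(2 / ρ) * y / (2 * ρ * y) + -(2 / ρ) * z / (2 * ρ * z)) =
      3 / ρ ^ 2 := by
  field_simp
  norm_num

theorem conv (a : Fin 3 → ℝ → ℝ) (T ρ : ℝ) (hρ : 0 < ρ) (hT : T = ρ * Real.pi / 3)
    (h : ∀ t ∈ Icc 0 T, a 0 t = 2 * ρ * Real.sin (t / ρ) ∧
        a 1 t = 2 * ρ * Real.sin (Real.pi / 3 - t / ρ) ∧
        a 2 t = 2 * ρ * Real.sin (Real.pi / 3 + t / ρ)) : IsEinstein a T (3 / ρ ^ 2) := by
  intro t ht j k
  by_cases hjk : j = k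
  swap
  · rw [if_neg hjk, ric_off a t j k hjk]
  subst hjk
  rw [if_pos rfl]
  have d0 : ∀ r : ℝ, HasDerivAt (fun r => r / ρ) (1 / ρ) r := fun r => (hasDerivAt_id r).div_const ρ
  have j0 := jets (f := a 0) (F := fun r => 2 * ρ * Real.sin (r / ρ))
    (F' := fun r => 2 * Real.cos (r / ρ)) (F'' := fun r => -(2 / ρ) * Real.sin (r / ρ)) ht
    (fun r hr => (h r hr).1)
    (fun r => by
      refine (((d0 r).sin).const_mul (2 * ρ)).congr_deriv ?_
      field_simp)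
    (fun r => by
      refine (((d0 r).cos).const_mul 2).congr_deriv ?_
      ring)
  have j1 := jets (f := a 1) (F := fun r => 2 * ρ * Real.sin (Real.pi / 3 - r / ρ))
    (F' := fun r => -(2 * Real.cos (Real.pi / 3 - r / ρ)))
    (F'' := fun r => -(2 / ρ) * Real.sin (Real.pi / 3 - r / ρ)) ht
    (fun r hr => (h r hr).2.1)
    (fun r => by
      refine ((((d0 r).const_sub (Real.pi / 3)).sin).const_mul (2 * ρ)).congr_deriv ?_
      field_simp)
    (fun r => by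
      refine ((((d0 r).const_sub (Real.pi / 3)).cos).const_mul 2).neg.congr_deriv ?_
      ring)
  have j2 := jets (f := a 2) (F := fun r => 2 * ρ * Real.sin (Real.pi / 3 + r / ρ))
    (F' := fun r => 2 * Real.cos (Real.pi / 3 + r / ρ))
    (F'' := fun r => -(2 / ρ) * Real.sin (Real.pi / 3 + r / ρ)) ht
    (fun r hr => (h r hr).2.2)
    (fun r => by
      refine ((((d0 r).const_add (Real.pi / 3)).sin).const_mul (2 * ρ)).congr_deriv ?_
      field_simp)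
    (fun r => by
      refine ((((d0 r).const_add (Real.pi / 3)).cos).const_mul 2).congr_deriv ?_
      ring)
  obtain ⟨p0, p0', v0, w0, z0⟩ := j0
  obtain ⟨p1, p1', v1, w1, z1⟩ := j1
  obtain ⟨p2, p2', v2, w2, z2⟩ := j2
  have hθ0 : 0 < t / ρ := div_pos ht.1 hρ
  have hθ1 : t / ρ < Real.pi / 3 := by
    rw [div_lt_iff₀ hρ]
    have := ht.2
    rw [hT] at this
    linarith
  have hpi := Real.pi_pos
  have s0 : 0 < Real.sin (t / ρ) := Real.sin_pos_of_pos_of_lt_pi hθ0 (by linarith)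
  have s1 : 0 < Real.sin (Real.pi / 3 - t / ρ) :=
    Real.sin_pos_of_pos_of_lt_pi (by linarith) (by linarith)
  have s2 : 0 < Real.sin (Real.pi / 3 + t / ρ) :=
    Real.sin_pos_of_pos_of_lt_pi (by linarith) (by linarith)
  have e1 : Real.sin (Real.pi / 3 - t / ρ) = Real.sqrt 3 / 2 * Real.cos (t / ρ) -
      Real.sin (t / ρ) / 2 := by
    rw [Real.sin_sub, Real.sin_pi_div_three, Real.cos_pi_div_three]; ring
  have e2 : Real.sin (Real.pi / 3 + t / ρ) = Real.sqrt 3 / 2 * Real.cos (t / ρ) +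
      Real.sin (t / ρ) / 2 := by
    rw [Real.sin_add, Real.sin_pi_div_three, Real.cos_pi_div_three]; ring
  have f1 : Real.cos (Real.pi / 3 - t / ρ) = Real.cos (t / ρ) / 2 +
      Real.sqrt 3 / 2 * Real.sin (t / ρ) := by
    rw [Real.cos_sub, Real.sin_pi_div_three, Real.cos_pi_div_three]; ring
  have f2 : Real.cos (Real.pi / 3 + t / ρ) = Real.cos (t / ρ) / 2 -
      Real.sqrt 3 / 2 * Real.sin (t / ρ) := by
    rw [Real.cos_add, Real.sin_pi_div_three, Real.cos_pi_div_three]; ring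
  have hq : Real.sqrt 3 ^ 2 = 3 := Real.sq_sqrt (by norm_num)
  have hsc : Real.sin (t / ρ) ^ 2 + Real.cos (t / ρ) ^ 2 = 1 := Real.sin_sq_add_cos_sq _
  have hn : ∀ i, a i t ≠ 0 := by
    intro i
    fin_cases i
    · simp only [Fin.zero_eta]; rw [v0]; positivity
    · simp only [Fin.mk_one]; rw [v1]; positivity
    · simp only [Fin.reduceFinMk]; rw [v2]; positivity
  have hd : ∀ i, DifferentiableAt ℝ (a i) t := by
    intro i
    fin_cases i
    exacts [p0, p1, p2]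
  have hd' : ∀ i, DifferentiableAt ℝ (deriv (a i)) t := by
    intro i
    fin_cases i
    exacts [p0', p1', p2']
  have hC : Real.sqrt 3 * Real.cos (t / ρ) =
      Real.sin (t / ρ) + 2 * Real.sin (Real.pi / 3 - t / ρ) := by rw [e1]; ring
  have hD : Real.sqrt 3 * Real.cos (Real.pi / 3 - t / ρ) =
      2 * Real.sin (t / ρ) + Real.sin (Real.pi / 3 - t / ρ) := by
    rw [f1, e1]; linear_combination (Real.sin (t / ρ) / 2) * hq
  have hE : Real.sqrt 3 * Real.cos (Real.pi / 3 + t / ρ) =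
      Real.sin (Real.pi / 3 - t / ρ) - Real.sin (t / ρ) := by
    rw [f2, e1]; linear_combination (-(Real.sin (t / ρ)) / 2) * hq
  have hz : Real.sin (Real.pi / 3 + t / ρ) =
      Real.sin (t / ρ) + Real.sin (Real.pi / 3 - t / ρ) := by rw [e1, e2]; ring
  have h4 : 4 * (Real.sin (t / ρ) ^ 2 + Real.sin (t / ρ) * Real.sin (Real.pi / 3 - t / ρ) +
      Real.sin (Real.pi / 3 - t / ρ) ^ 2) = 3 := by
    rw [e1]; linear_combination (Real.cos (t / ρ) ^ 2) * hq + 3 * hsc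
  rcases j with _ | j
  · rw [ric_none a t hn hd hd', v0, v1, v2, z0, z1, z2]
    exact algn ρ _ _ _ hρ s0 s1 s2
  · fin_cases j
    · simp only [Fin.zero_eta]
      rw [ric_some0 a t hn hd hd', w0, w1, w2, z0]
      unfold rr
      rw [v0, v1, v2]
      exact alg0 ρ _ _ _ _ _ _ _ hρ s0 s1 hz hq hC hD hE h4
    · simp only [Fin.mk_one]
      rw [ric_some1 a t hn hd hd', w0, w1, w2, z1]
      unfold rr
      rw [v0, v1, v2]
      exact alg1 ρ _ _ _ _ _ _ _ hρ s0 s1 hz hq hC hD hE h4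
    · simp only [Fin.reduceFinMk]
      rw [ric_some2 a t hn hd hd', w0, w1, w2, z2]
      unfold rr
      rw [v0, v1, v2]
      exact alg2 ρ _ _ _ _ _ _ _ hρ s0 s1 hz hq hC hD hE h4

end Pool.Agent.H8S4
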