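import Pool.Agent.H8S4.Signs

set_option autoImplicit false

namespace Pool.Agent.H8S4

open Set Filter Topology

variable {a b c x y z : ℝ → ℝ} {T : ℝ}

/-- Step F: the product of the two differences increases where it is positive. -/
theorem uv_nonpos (h : XSys 1 a b c x y z T)
    (hx : ∀ t ∈ Ioo 0 T, 0 < x t) (hyz : ∀ t ∈ Ioo 0 T, y t < 0 ∧ z t < 0)
    (huT : Tendsto (fun t => pp b c x y z t - pp a b z x y t) (𝓝[<] T) (𝓝 0))
    {l : ℝ} (hvT : Tendsto (fun t => pp b c x y z t - pp c a y z x t) (𝓝[<] T) (𝓝 l)) :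
    ∀ t ∈ Ioo 0 T, (pp b c x y z t - pp a b z x y t) * (pp b c x y z t - pp c a y z x t) ≤ 0 := by
  intro t₁ ht₁
  by_contra hcon
  push Not at hcon
  set m := (pp b c x y z t₁ - pp a b z x y t₁) * (pp b c x y z t₁ - pp c a y z x t₁) with hm
  have hge : ∀ t ∈ Ioo t₁ T,
      m ≤ (pp b c x y z t - pp a b z x y t) * (pp b c x y z t - pp c a y z x t) := by
    intro t ht
    have hd : ∀ τ ∈ Icc t₁ t, HasDerivAt
        (fun r => (pp b c x y z r - pp a b z x y r) * (pp b c x y z r - pp c a y z x r))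
        (-2 * (x τ / a τ + y τ / b τ + z τ / c τ) *
            ((pp b c x y z τ - pp a b z x y τ) * (pp b c x y z τ - pp c a y z x τ))
          + (x τ / a τ - z τ / c τ) * (pp b c x y z τ - pp c a y z x τ) ^ 2
          + (x τ / a τ - y τ / b τ) * (pp b c x y z τ - pp a b z x y τ) ^ 2) τ := by
      intro τ hτ
      have hτ' : τ ∈ Ioo 0 T := ⟨ht₁.1.trans_le hτ.1, hτ.2.trans_lt ht.2⟩
      have h1 : HasDerivAt
        (fun r => (pp b c x y z r - pp a b z x y r) * (pp b c x y z r - pp c a y z x r)) _ τ :=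
        ((h.dp hτ').sub (h.rot.rot.dp hτ')).mul ((h.dp hτ').sub (h.rot.dp hτ'))
      refine h1.congr_deriv ?_
      simp only [Pi.sub_apply]
      ring
    exact barrier (f := fun r =>
        (pp b c x y z r - pp a b z x y r) * (pp b c x y z r - pp c a y z x r))
      (s := t₁) (t := t) ht.1.le hd (le_of_eq hm) (fun τ hτ he => by
      have hτ' : τ ∈ Ioo 0 T := ⟨ht₁.1.trans_le hτ.1, hτ.2.trans ht.2⟩
      rw [he]
      set u := pp b c x y z τ - pp a b z x y τ with hu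
      set v := pp b c x y z τ - pp c a y z x τ with hv
      have hX : 0 < x τ / a τ := div_pos (hx τ hτ') (h.ap τ hτ')
      have hY : y τ / b τ < 0 := div_neg_of_neg_of_pos (hyz τ hτ').1 (h.bp τ hτ')
      have hZ : z τ / c τ < 0 := div_neg_of_neg_of_pos (hyz τ hτ').2 (h.cp τ hτ')
      generalize x τ / a τ = X at *
      generalize y τ / b τ = Y at *
      generalize z τ / c τ = Z at *
      have huv : u * v = m := he
      have hu0 : u ≠ 0 := by rintro h0; rw [h0, zero_mul] at huv; linarith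
      have hv0 : v ≠ 0 := by rintro h0; rw [h0, mul_zero] at huv; linarith
      have hu2 : 0 < u ^ 2 := by positivity
      have hv2 : 0 < v ^ 2 := by positivity
      rw [← huv]
      have huv0 : 0 < u * v := by rw [huv]; exact hcon
      rcases le_or_gt (X + Y + Z) 0 with hS | hS
      · have e1 : 0 < (X - Z) * v ^ 2 := mul_pos (by linarith) hv2
        have e2 : 0 < (X - Y) * u ^ 2 := mul_pos (by linarith) hu2
        nlinarith [mul_nonneg (neg_nonneg.2 hS) huv0.le]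
      · have e1 : (X + Y + Z) * v ^ 2 < (X - Z) * v ^ 2 :=
          mul_lt_mul_of_pos_right (by linarith) hv2
        have e2 : (X + Y + Z) * u ^ 2 < (X - Y) * u ^ 2 :=
          mul_lt_mul_of_pos_right (by linarith) hu2
        nlinarith [mul_nonneg hS.le (sq_nonneg (u - v))])
  have hlim := huT.mul hvT
  rw [zero_mul] at hlim
  have hev : ∀ᶠ t in 𝓝[<] T,
      m ≤ (pp b c x y z t - pp a b z x y t) * (pp b c x y z t - pp c a y z x t) := by
    filter_upwards [Ioo_mem_nhdsLT ht₁.2] with t ht using hge t ht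
  have := ge_of_tendsto hlim hev
  linarith

theorem form_bound {w s Y Z K : ℝ} (hY : |Y| ≤ K) (hZ : |Z| ≤ K) :
    Z * (4 * s * w - w ^ 2 - 3 * s ^ 2) - Y * (4 * s * w + w ^ 2 + 3 * s ^ 2)
      ≤ 10 * K * (w ^ 2 + s ^ 2) := by
  have hK : 0 ≤ K := (abs_nonneg _).trans hY
  have e1 : |4 * s * w - w ^ 2 - 3 * s ^ 2| ≤ 5 * s ^ 2 + 3 * w ^ 2 := by
    rw [abs_le]; constructor <;> nlinarith [sq_nonneg (s + w), sq_nonneg (s - w)]
  have e2 : |4 * s * w + w ^ 2 + 3 * s ^ 2| ≤ 5 * s ^ 2 + 3 * w ^ 2 := by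
    rw [abs_le]; constructor <;> nlinarith [sq_nonneg (s + w), sq_nonneg (s - w)]
  have e3 : Z * (4 * s * w - w ^ 2 - 3 * s ^ 2) ≤ K * (5 * s ^ 2 + 3 * w ^ 2) := by
    calc _ ≤ |Z * (4 * s * w - w ^ 2 - 3 * s ^ 2)| := le_abs_self _
      _ = |Z| * |4 * s * w - w ^ 2 - 3 * s ^ 2| := abs_mul _ _
      _ ≤ _ := mul_le_mul hZ e1 (abs_nonneg _) hK
  have e4 : -(Y * (4 * s * w + w ^ 2 + 3 * s ^ 2)) ≤ K * (5 * s ^ 2 + 3 * w ^ 2) := by
    calc _ ≤ |Y * (4 * s * w + w ^ 2 + 3 * s ^ 2)| := neg_le_abs _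
      _ = |Y| * |4 * s * w + w ^ 2 + 3 * s ^ 2| := abs_mul _ _
      _ ≤ _ := mul_le_mul hY e2 (abs_nonneg _) hK
  nlinarith [mul_nonneg hK (sq_nonneg w), mul_nonneg hK (sq_nonneg s)]

/-- Step H: if the curvature differences vanish at `0` they vanish identically. -/
theorem flat_of_zero (h : XSys 1 a b c x y z T) (hx : ∀ t ∈ Ioo 0 T, 0 < x t)
    (hY0 : Tendsto (fun t => y t / b t) (𝓝[>] 0) (𝓝 0))
    (hZ0 : Tendsto (fun t => z t / c t) (𝓝[>] 0) (𝓝 0))
    (hw0 : Tendsto (fun t => pp c a y z x t - pp a b z x y t) (𝓝[>] 0) (𝓝 0))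
    (hs0 : Tendsto (fun t => 2 * pp b c x y z t - pp c a y z x t - pp a b z x y t)
      (𝓝[>] 0) (𝓝 0)) :
    ∀ t ∈ Ioo 0 T, pp b c x y z t = pp c a y z x t ∧ pp c a y z x t = pp a b z x y t := by
  -- derivative of N
  have hN : ∀ τ ∈ Ioo 0 T, HasDerivAt
      (fun r => (pp c a y z x r - pp a b z x y r) ^ 2 +
        (2 * pp b c x y z r - pp c a y z x r - pp a b z x y r) ^ 2)
      (-4 * (x τ / a τ) * (pp c a y z x τ - pp a b z x y τ) ^ 2 +
        ((z τ / c τ) * (4 * (2 * pp b c x y z τ - pp c a y z x τ - pp a b z x y τ) *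
            (pp c a y z x τ - pp a b z x y τ) - (pp c a y z x τ - pp a b z x y τ) ^ 2
            - 3 * (2 * pp b c x y z τ - pp c a y z x τ - pp a b z x y τ) ^ 2) -
         (y τ / b τ) * (4 * (2 * pp b c x y z τ - pp c a y z x τ - pp a b z x y τ) *
            (pp c a y z x τ - pp a b z x y τ) + (pp c a y z x τ - pp a b z x y τ) ^ 2
            + 3 * (2 * pp b c x y z τ - pp c a y z x τ - pp a b z x y τ) ^ 2))) τ := by
    intro τ hτ
    have hp := h.dp hτ
    have hq := h.rot.dp hτ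
    have hr := h.rot.rot.dp hτ
    have h1 : HasDerivAt (fun r => (pp c a y z x r - pp a b z x y r) ^ 2 +
        (2 * pp b c x y z r - pp c a y z x r - pp a b z x y r) ^ 2) _ τ :=
      ((hq.sub hr).pow 2).add ((((hp.const_mul 2).sub hq).sub hr).pow 2)
    refine h1.congr_deriv ?_
    simp only [Pi.sub_apply]
    push_cast
    ring
  have hbound : ∀ K : ℝ, ∀ τ ∈ Ioo 0 T, |y τ / b τ| ≤ K → |z τ / c τ| ≤ K →
      (-4 * (x τ / a τ) * (pp c a y z x τ - pp a b z x y τ) ^ 2 +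
        ((z τ / c τ) * (4 * (2 * pp b c x y z τ - pp c a y z x τ - pp a b z x y τ) *
            (pp c a y z x τ - pp a b z x y τ) - (pp c a y z x τ - pp a b z x y τ) ^ 2
            - 3 * (2 * pp b c x y z τ - pp c a y z x τ - pp a b z x y τ) ^ 2) -
         (y τ / b τ) * (4 * (2 * pp b c x y z τ - pp c a y z x τ - pp a b z x y τ) *
            (pp c a y z x τ - pp a b z x y τ) + (pp c a y z x τ - pp a b z x y τ) ^ 2
            + 3 * (2 * pp b c x y z τ - pp c a y z x τ - pp a b z x y τ) ^ 2)))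
      ≤ 10 * K * ((pp c a y z x τ - pp a b z x y τ) ^ 2 +
        (2 * pp b c x y z τ - pp c a y z x τ - pp a b z x y τ) ^ 2) := by
    intro K τ hτ h1 h2
    have h3 := form_bound (w := pp c a y z x τ - pp a b z x y τ)
      (s := 2 * pp b c x y z τ - pp c a y z x τ - pp a b z x y τ) h1 h2
    have h4 : 0 ≤ (x τ / a τ) * (pp c a y z x τ - pp a b z x y τ) ^ 2 :=
      mul_nonneg (div_pos (hx τ hτ) (h.ap τ hτ)).le (sq_nonneg _)
    linarith
  have hN0 : Tendsto (fun r => (pp c a y z x r - pp a b z x y r) ^ 2 +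
        (2 * pp b c x y z r - pp c a y z x r - pp a b z x y r) ^ 2) (𝓝[>] 0) (𝓝 0) := by
    simpa using (hw0.pow 2).add (hs0.pow 2)
  suffices hz : ∀ t ∈ Ioo 0 T, (pp c a y z x t - pp a b z x y t) ^ 2 +
        (2 * pp b c x y z t - pp c a y z x t - pp a b z x y t) ^ 2 ≤ 0 by
    intro t ht
    have h1 := hz t ht
    have h2 : (pp c a y z x t - pp a b z x y t) ^ 2 = 0 := by
      nlinarith [sq_nonneg (pp c a y z x t - pp a b z x y t),
        sq_nonneg (2 * pp b c x y z t - pp c a y z x t - pp a b z x y t)]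
    have h3 : (2 * pp b c x y z t - pp c a y z x t - pp a b z x y t) ^ 2 = 0 := by
      nlinarith [sq_nonneg (pp c a y z x t - pp a b z x y t),
        sq_nonneg (2 * pp b c x y z t - pp c a y z x t - pp a b z x y t)]
    have h4 := pow_eq_zero_iff (two_ne_zero) |>.1 h2
    have h5 := pow_eq_zero_iff (two_ne_zero) |>.1 h3
    constructor <;> linarith
  intro t ht
  have hev : ∀ᶠ r in 𝓝[>] (0:ℝ), |y r / b r| ≤ 1 ∧ |z r / c r| ≤ 1 := by
    have h1 : ∀ᶠ r in 𝓝[>] (0:ℝ), |y r / b r| < 1 := by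
      have := hY0.abs
      rw [abs_zero] at this
      exact this.eventually_lt_const (by norm_num)
    have h2 : ∀ᶠ r in 𝓝[>] (0:ℝ), |z r / c r| < 1 := by
      have := hZ0.abs
      rw [abs_zero] at this
      exact this.eventually_lt_const (by norm_num)
    filter_upwards [h1, h2] with r h1 h2 using ⟨h1.le, h2.le⟩
  obtain ⟨e, he, hpe⟩ := mem_nhdsGT_iff_exists_Ioo_subset.1 hev
  have he0 : 0 < e := he
  set t₁ := min (e / 2) t with ht₁
  have ht₁0 : 0 < t₁ := lt_min (by linarith) ht.1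
  have ht₁e : t₁ < e := (min_le_left _ _).trans_lt (by linarith)
  have ht₁t : t₁ ≤ t := min_le_right _ _
  have h1 := gron0 (K := 10 * 1) ht₁0
    (fun τ hτ => hN τ ⟨hτ.1, (hτ.2.trans ht₁t).trans_lt ht.2⟩) hN0
    (fun τ hτ => hbound 1 τ ⟨hτ.1, (hτ.2.trans ht₁t).trans_lt ht.2⟩
      (hpe ⟨hτ.1, hτ.2.trans_lt ht₁e⟩).1 (hpe ⟨hτ.1, hτ.2.trans_lt ht₁e⟩).2)
  have hcontY : ContinuousOn (fun r => y r / b r) (Icc t₁ t) := by
    intro τ hτ
    have hτ' : τ ∈ Ioo 0 T := ⟨ht₁0.trans_le hτ.1, hτ.2.trans_lt ht.2⟩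
    exact ((h.dy τ hτ').continuousAt.div (h.db τ hτ').continuousAt
      (h.bp τ hτ').ne').continuousWithinAt
  have hcontZ : ContinuousOn (fun r => z r / c r) (Icc t₁ t) := by
    intro τ hτ
    have hτ' : τ ∈ Ioo 0 T := ⟨ht₁0.trans_le hτ.1, hτ.2.trans_lt ht.2⟩
    exact ((h.dz τ hτ').continuousAt.div (h.dc τ hτ').continuousAt
      (h.cp τ hτ').ne').continuousWithinAt
  obtain ⟨K₁, hK₁⟩ := isCompact_Icc.exists_bound_of_continuousOn hcontY
  obtain ⟨K₂, hK₂⟩ := isCompact_Icc.exists_bound_of_continuousOn hcontZ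
  exact gron (f := fun r => (pp c a y z x r - pp a b z x y r) ^ 2 +
        (2 * pp b c x y z r - pp c a y z x r - pp a b z x y r) ^ 2)
    (s := t₁) (t := t) (K := 10 * max K₁ K₂) ht₁t
    (fun τ hτ => hN τ ⟨ht₁0.trans_le hτ.1, hτ.2.trans_lt ht.2⟩) h1
    (fun τ hτ => hbound _ τ ⟨ht₁0.trans hτ.1, hτ.2.trans ht.2⟩
      ((hK₁ τ ⟨hτ.1.le, hτ.2.le⟩).trans (le_max_left _ _))
      ((hK₂ τ ⟨hτ.1.le, hτ.2.le⟩).trans (le_max_right _ _)))

end Pool.Agent.H8S4
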