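import Pool.Agent.H8S4.Left2

set_option autoImplicit false

namespace Pool.Agent.H8S4

open Set Filter Topology Asymptotics

/-- Einstein data on `[0,T]` closing up at both ends. -/
structure EData (a b c : ℝ → ℝ) (T L : ℝ) : Prop where
  cA : ContDiff ℝ 2 a
  cB : ContDiff ℝ 2 b
  cC : ContDiff ℝ 2 c
  hT : 0 < T
  ap : ∀ t ∈ Ioo 0 T, 0 < a t
  bp : ∀ t ∈ Ioo 0 T, 0 < b t
  cp : ∀ t ∈ Ioo 0 T, 0 < c t
  eA : ∀ t ∈ Ioo 0 T, EinA a b c L t
  eB : ∀ t ∈ Ioo 0 T, EinA b c a L t
  eC : ∀ t ∈ Ioo 0 T, EinA c a b L t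
  e0 : ∀ t ∈ Ioo 0 T, EinC a b c L t
  a0 : a 0 = 0
  a1 : deriv a 0 = 2
  b0 : b 0 = c 0
  b0p : 0 < b 0
  b1 : deriv b 0 = -deriv c 0
  bT : b T = 0
  bT1 : deriv b T = -2
  aT : a T = c T
  aTp : 0 < a T
  aT1 : deriv a T = -deriv c T

variable {a b c : ℝ → ℝ} {T L : ℝ}

theorem rr_comm (a b c : ℝ → ℝ) (t : ℝ) : rr a b c t = rr a c b t := by
  unfold rr; congr 1 <;> ring

theorem deriv_mirror (f : ℝ → ℝ) (T : ℝ) :
    deriv (fun t => f (T - t)) = fun t => -deriv f (T - t) := by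
  funext t
  exact deriv_comp_const_sub f T t

theorem deriv2_mirror (f : ℝ → ℝ) (T t : ℝ) :
    deriv (deriv (fun t => f (T - t))) t = deriv (deriv f) (T - t) := by
  rw [deriv_mirror]
  have : (fun t => -deriv f (T - t)) = -(fun t => deriv f (T - t)) := rfl
  rw [this, deriv.neg, deriv_mirror (deriv f) T]
  simp

theorem EinA.mirror {a b c : ℝ → ℝ} {T L t : ℝ} (h : EinA a b c L (T - t)) :
    EinA (fun t => a (T - t)) (fun t => b (T - t)) (fun t => c (T - t)) L t := by
  unfold EinA at h ⊢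
  rw [deriv2_mirror, deriv_mirror, deriv_mirror, deriv_mirror, h]
  have : rr (fun t => a (T - t)) (fun t => b (T - t)) (fun t => c (T - t)) t
      = rr a b c (T - t) := rfl
  rw [this]
  ring

theorem EinA.comm {a b c : ℝ → ℝ} {L t : ℝ} (h : EinA a b c L t) : EinA a c b L t := by
  unfold EinA at h ⊢
  rw [h, rr_comm]
  ring

theorem EinC.mirror {a b c : ℝ → ℝ} {T L t : ℝ} (h : EinC a b c L (T - t)) :
    EinC (fun t => a (T - t)) (fun t => b (T - t)) (fun t => c (T - t)) L t := by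
  unfold EinC at h ⊢
  rw [deriv_mirror, deriv_mirror, deriv_mirror]
  have e1 : rr (fun t => a (T - t)) (fun t => b (T - t)) (fun t => c (T - t)) t
      = rr a b c (T - t) := rfl
  have e2 : rr (fun t => b (T - t)) (fun t => c (T - t)) (fun t => a (T - t)) t
      = rr b c a (T - t) := rfl
  have e3 : rr (fun t => c (T - t)) (fun t => a (T - t)) (fun t => b (T - t)) t
      = rr c a b (T - t) := rfl
  rw [e1, e2, e3, ← h]
  ring

theorem EinC.rot {a b c : ℝ → ℝ} {L t : ℝ} (h : EinC a b c L t) : EinC b c a L t := by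
  unfold EinC at h ⊢
  rw [← h]
  ring

theorem EinC.swap {a b c : ℝ → ℝ} {L t : ℝ} (h : EinC a b c L t) : EinC b a c L t := by
  unfold EinC at h ⊢
  rw [← h, rr_comm b a c, rr_comm a c b, rr_comm c b a, mul_comm (b t) (a t),
    mul_comm (a t) (c t), mul_comm (c t) (b t)]
  ring

theorem EData.mirror (h : EData a b c T L) :
    EData (fun t => b (T - t)) (fun t => a (T - t)) (fun t => c (T - t)) T L where
  cA := h.cB.comp (contDiff_const.sub contDiff_id)
  cB := h.cA.comp (contDiff_const.sub contDiff_id)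
  cC := h.cC.comp (contDiff_const.sub contDiff_id)
  hT := h.hT
  ap t ht := h.bp (T - t) ⟨by linarith [ht.2], by linarith [ht.1]⟩
  bp t ht := h.ap (T - t) ⟨by linarith [ht.2], by linarith [ht.1]⟩
  cp t ht := h.cp (T - t) ⟨by linarith [ht.2], by linarith [ht.1]⟩
  eA t ht := ((h.eB (T - t) ⟨by linarith [ht.2], by linarith [ht.1]⟩).comm).mirror
  eB t ht := ((h.eA (T - t) ⟨by linarith [ht.2], by linarith [ht.1]⟩).comm).mirror
  eC t ht := ((h.eC (T - t) ⟨by linarith [ht.2], by linarith [ht.1]⟩).comm).mirror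
  e0 t ht := ((h.e0 (T - t) ⟨by linarith [ht.2], by linarith [ht.1]⟩).swap).mirror
  a0 := by simpa using h.bT
  a1 := by rw [deriv_mirror]; simp [h.bT1]
  b0 := by simpa using h.aT
  b0p := by simpa using h.aTp
  b1 := by rw [deriv_mirror, deriv_mirror]; simp [h.aT1]
  bT := by simpa using h.a0
  bT1 := by rw [deriv_mirror]; simp [h.a1]
  aT := by simpa using h.b0
  aTp := by simpa using h.b0p
  aT1 := by rw [deriv_mirror, deriv_mirror]; simp [h.b1]

theorem EData.left (h : EData a b c T L) : LeftEnd a b c (b 0) (deriv c 0) :=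
  ⟨h.cA, h.cB, h.cC, h.a0, h.a1, rfl, h.b1, h.b0.symm, rfl, h.b0p⟩

theorem EData.xsys (h : EData a b c T L) {s : ℝ} (hs : s = 1 ∨ s = -1) :
    XSys s a b c (xx s a b c) (xx s b c a) (xx s c a b) T := by
  have hd : ∀ f : ℝ → ℝ, ContDiff ℝ 2 f → ∀ t, DifferentiableAt ℝ f t := fun f hf t =>
    (hf.differentiable (by norm_num)) t
  have hd' : ∀ f : ℝ → ℝ, ContDiff ℝ 2 f → ∀ t, DifferentiableAt ℝ (deriv f) t := fun f hf t =>
    ((hf.deriv' : ContDiff ℝ 1 (deriv f)).differentiable (by norm_num)) t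
  have hs2 : s * s = 1 := by rcases hs with rfl | rfl <;> norm_num
  have hda : ∀ (f g k : ℝ → ℝ), ContDiff ℝ 2 f → ∀ t,
      HasDerivAt f (s * (xx s f g k t - cc f g k t)) t := by
    intro f g k hf t
    have e : s * (xx s f g k t - cc f g k t) = deriv f t := by
      unfold xx
      linear_combination (deriv f t) * hs2
    rw [e]
    exact (hd f hf t).hasDerivAt
  refine ⟨h.ap, h.bp, h.cp, fun t _ => hda a b c h.cA t, fun t _ => hda b c a h.cB t,
    fun t _ => hda c a b h.cC t, ?_, ?_, ?_⟩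
  · intro t ht
    exact deriv_xx hs (hd a h.cA t) (hd' a h.cA t) (hd b h.cB t) (hd c h.cC t)
      (h.ap t ht).ne' (h.bp t ht).ne' (h.cp t ht).ne' (h.eA t ht) (h.e0 t ht)
  · intro t ht
    exact deriv_xx hs (hd b h.cB t) (hd' b h.cB t) (hd c h.cC t) (hd a h.cA t)
      (h.bp t ht).ne' (h.cp t ht).ne' (h.ap t ht).ne' (h.eB t ht) (h.e0 t ht).rot
  · intro t ht
    exact deriv_xx hs (hd c h.cC t) (hd' c h.cC t) (hd a h.cA t) (hd b h.cB t)
      (h.cp t ht).ne' (h.ap t ht).ne' (h.bp t ht).ne' (h.eC t ht) (h.e0 t ht).rot.rot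

theorem xx_mirror (s : ℝ) (a b c : ℝ → ℝ) (T t : ℝ) :
    xx s (fun t => a (T - t)) (fun t => b (T - t)) (fun t => c (T - t)) t
      = xx (-s) a b c (T - t) := by
  unfold xx
  rw [deriv_mirror]
  have : cc (fun t => a (T - t)) (fun t => b (T - t)) (fun t => c (T - t)) t
      = cc a b c (T - t) := rfl
  rw [this]
  ring

theorem xx_comm (s : ℝ) (a b c : ℝ → ℝ) (t : ℝ) : xx s a b c t = xx s a c b t := by
  unfold xx; rw [cc_comm]

theorem tendsto_mirror {f : ℝ → ℝ} {l : Filter ℝ} {T : ℝ}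
    (h : Tendsto (fun t => f (T - t)) (𝓝[>] 0) l) : Tendsto f (𝓝[<] T) l := by
  have h1 : Tendsto (fun t : ℝ => T - t) (𝓝[<] T) (𝓝[>] 0) := by
    refine tendsto_nhdsWithin_of_tendsto_nhds_of_eventually_within _ ?_ ?_
    · have : ContinuousAt (fun t : ℝ => T - t) T := by fun_prop
      have h2 := this.tendsto
      simp only [sub_self] at h2
      exact h2.mono_left nhdsWithin_le_nhds
    · filter_upwards [self_mem_nhdsWithin] with t ht
      have : t < T := ht
      simp [this]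
  have h2 := h.comp h1
  refine h2.congr fun t => ?_
  simp

/-- The positive half of the curvature is constant. -/
theorem EData.flat (h : EData a b c T L) : ∀ t ∈ Ioo 0 T,
    pp b c (xx 1 a b c) (xx 1 b c a) (xx 1 c a b) t = L / 3 ∧
    pp c a (xx 1 b c a) (xx 1 c a b) (xx 1 a b c) t = L / 3 ∧
    pp a b (xx 1 c a b) (xx 1 a b c) (xx 1 b c a) t = L / 3 := by
  have hX := h.xsys (s := 1) (Or.inl rfl)
  have hL := h.left
  have hx0 : Tendsto (xx 1 a b c) (𝓝[>] 0) (𝓝 3) := by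
    have := tendsto_of_bigO (hL.xO (s := 1))
    norm_num at this
    exact this
  have hy0 : Tendsto (xx 1 b c a) (𝓝[>] 0) (𝓝 0) := by
    have := tendsto_of_bigO (hL.yO (s := 1))
    norm_num at this
    exact this
  have hz0 : Tendsto (xx 1 c a b) (𝓝[>] 0) (𝓝 0) := by
    have := tendsto_of_bigO (hL.zO (s := 1))
    norm_num at this
    exact this
  -- right end via the mirror
  have hm := h.mirror
  have hLm := hm.left
  have hXm := hm.xsys (s := -1) (Or.inr rfl)
  have e1 : ∀ t, xx (-1) (fun t => b (T - t)) (fun t => a (T - t)) (fun t => c (T - t)) t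
      = xx 1 b c a (T - t) := fun t => by rw [xx_mirror, neg_neg, xx_comm]
  have e2 : ∀ t, xx (-1) (fun t => a (T - t)) (fun t => c (T - t)) (fun t => b (T - t)) t
      = xx 1 a b c (T - t) := fun t => by rw [xx_mirror, neg_neg, xx_comm]
  have e3 : ∀ t, xx (-1) (fun t => c (T - t)) (fun t => b (T - t)) (fun t => a (T - t)) t
      = xx 1 c a b (T - t) := fun t => by rw [xx_mirror, neg_neg, xx_comm]
  have hyT : Tendsto (xx 1 b c a) (𝓝[<] T) (𝓝 (-1)) := by
    apply tendsto_mirror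
    have := tendsto_of_bigO (hLm.xO (s := -1))
    norm_num at this
    exact this.congr e1
  have hw := hLm.w0 (s := -1) (Or.inr rfl) h.hT hXm
  have f1 : ∀ t, pp (fun t => c (T - t)) (fun t => b (T - t))
      (xx (-1) (fun t => a (T - t)) (fun t => c (T - t)) (fun t => b (T - t)))
      (xx (-1) (fun t => c (T - t)) (fun t => b (T - t)) (fun t => a (T - t)))
      (xx (-1) (fun t => b (T - t)) (fun t => a (T - t)) (fun t => c (T - t))) t
      = pp b c (xx 1 a b c) (xx 1 b c a) (xx 1 c a b) (T - t) := by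
    intro t
    unfold pp
    rw [e1, e2, e3]
    congr 1 <;> ring
  have f2 : ∀ t, pp (fun t => b (T - t)) (fun t => a (T - t))
      (xx (-1) (fun t => c (T - t)) (fun t => b (T - t)) (fun t => a (T - t)))
      (xx (-1) (fun t => b (T - t)) (fun t => a (T - t)) (fun t => c (T - t)))
      (xx (-1) (fun t => a (T - t)) (fun t => c (T - t)) (fun t => b (T - t))) t
      = pp a b (xx 1 c a b) (xx 1 a b c) (xx 1 b c a) (T - t) := by
    intro t
    unfold pp
    rw [e1, e2, e3]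
    congr 1 <;> ring
  have f3 : ∀ t, pp (fun t => a (T - t)) (fun t => c (T - t))
      (xx (-1) (fun t => b (T - t)) (fun t => a (T - t)) (fun t => c (T - t)))
      (xx (-1) (fun t => a (T - t)) (fun t => c (T - t)) (fun t => b (T - t)))
      (xx (-1) (fun t => c (T - t)) (fun t => b (T - t)) (fun t => a (T - t))) t
      = pp c a (xx 1 b c a) (xx 1 c a b) (xx 1 a b c) (T - t) := by
    intro t
    unfold pp
    rw [e1, e2, e3]
    congr 1 <;> ring
  have huT : Tendsto (fun t => pp b c (xx 1 a b c) (xx 1 b c a) (xx 1 c a b) t -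
      pp a b (xx 1 c a b) (xx 1 a b c) (xx 1 b c a) t) (𝓝[<] T) (𝓝 0) := by
    apply tendsto_mirror
    refine hw.congr fun t => ?_
    rw [f1, f2]
  obtain ⟨l, hl⟩ : ∃ l, Tendsto (pp c a (xx 1 b c a) (xx 1 c a b) (xx 1 a b c))
      (𝓝[<] T) (𝓝 l) := by
    refine ⟨_, tendsto_mirror ((hLm.pT (s := -1)).congr fun t => ?_)⟩
    rw [f3]
  have hsum : ∀ t ∈ Ioo 0 T, pp b c (xx 1 a b c) (xx 1 b c a) (xx 1 c a b) t +
      pp c a (xx 1 b c a) (xx 1 c a b) (xx 1 a b c) t +
      pp a b (xx 1 c a b) (xx 1 a b c) (xx 1 b c a) t = L := fun t ht =>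
    sum_pp (Or.inl rfl) (h.ap t ht).ne' (h.bp t ht).ne' (h.cp t ht).ne' (h.e0 t ht)
  have hw0 := hL.w0 (s := 1) (Or.inl rfl) h.hT hX
  have hp0 := hL.pT (s := 1)
  have hY0 : Tendsto (fun t => xx 1 b c a t / b t) (𝓝[>] 0) (𝓝 0) := by
    have := hy0.div hL.tb hL.hβ.ne'
    rwa [zero_div] at this
  have hZ0 : Tendsto (fun t => xx 1 c a b t / c t) (𝓝[>] 0) (𝓝 0) := by
    have := hz0.div hL.tc hL.hβ.ne'
    rwa [zero_div] at this
  generalize xx 1 a b c = x at *
  generalize xx 1 b c a = y at *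
  generalize xx 1 c a b = z at *
  have hxpos := x_pos hX hx0 hy0 hz0
  have hyz := y_neg hX hx0 hy0 hz0 hyT
  -- limits at T
  have hvT : Tendsto (fun t => pp b c x y z t - pp c a y z x t) (𝓝[<] T)
      (𝓝 ((L - l + 0) / 2 - l)) := by
    refine ((((tendsto_const_nhds.sub hl).add huT).div_const 2).sub hl).congr' ?_
    filter_upwards [Ioo_mem_nhdsLT h.hT] with t ht
    have := hsum t ht
    linarith
  have huv := uv_nonpos hX hxpos hyz huT hvT
  -- limits at 0
  set p0 := (2 * (1:ℝ) + 1 - (deriv c 0 - 1 * deriv c 0) * (1 * deriv c 0 - deriv c 0)) /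
    (b 0 * b 0) with hp0def
  have hs0 : Tendsto (fun t => 2 * pp b c x y z t - pp c a y z x t - pp a b z x y t)
      (𝓝[>] 0) (𝓝 (3 * p0 - L)) := by
    refine ((hp0.const_mul 3).sub_const L).congr' ?_
    filter_upwards [Ioo_mem_nhdsGT h.hT] with t ht
    have := hsum t ht
    linarith
  have hu0 : Tendsto (fun t => pp b c x y z t - pp a b z x y t) (𝓝[>] 0)
      (𝓝 ((3 * p0 - L + 0) / 2)) := by
    refine ((hs0.add hw0).div_const 2).congr' ?_
    filter_upwards with t
    ring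
  have hv0 : Tendsto (fun t => pp b c x y z t - pp c a y z x t) (𝓝[>] 0)
      (𝓝 ((3 * p0 - L - 0) / 2)) := by
    refine ((hs0.sub hw0).div_const 2).congr' ?_
    filter_upwards with t
    ring
  have hδ : 3 * p0 - L = 0 := by
    have h1 := hu0.mul hv0
    have h2 : ((3 * p0 - L + 0) / 2) * ((3 * p0 - L - 0) / 2) ≤ 0 := by
      refine le_of_tendsto h1 ?_
      filter_upwards [Ioo_mem_nhdsGT h.hT] with t ht using huv t ht
    nlinarith [sq_nonneg (3 * p0 - L)]
  rw [hδ] at hs0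
  have hflat := flat_of_zero hX hxpos hY0 hZ0 hw0 hs0
  intro t ht
  obtain ⟨g1, g2⟩ := hflat t ht
  have g3 := hsum t ht
  refine ⟨by linarith, by linarith, by linarith⟩

end Pool.Agent.H8S4
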