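import Mathlib

set_option autoImplicit false

namespace Pool.Agent.H8S4

open Set

noncomputable section

/-- The permutation symbol: structure constants of `so(3)`. -/
def eps (i j k : Fin 3) : ℝ :=
  if j = i + 1 ∧ k = i + 2 then 1 else if j = i + 2 ∧ k = i + 1 then -1 else 0

/-- `brk a t i j k` is the `e_k` component of the bracket `[e_i, e_j]` at time `t` for the
frame `e_none = d/dt`, `e_(some i) = E_i / a_i`, `E_i` left invariant on `SO(3)` with
`[E_i, E_j] = sum_k eps i j k E_k`. -/
def brk (a : Fin 3 → ℝ → ℝ) (t : ℝ) : Option (Fin 3) → Option (Fin 3) → Option (Fin 3) → ℝ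
  | none, some j, some k => if j = k then -(deriv (a j) t / a j t) else 0
  | some i, none, some k => if i = k then deriv (a i) t / a i t else 0
  | some i, some j, some k => eps i j k * a k t / (a i t * a j t)
  | _, _, _ => 0

/-- The Levi-Civita connection in the orthonormal frame: `Gam a t i j k` is the inner product of
`nabla_(e_i) e_j` and `e_k`. -/
def Gam (a : Fin 3 → ℝ → ℝ) (t : ℝ) (i j k : Option (Fin 3)) : ℝ :=
  (brk a t i j k - brk a t j k i + brk a t k i j) / 2

/-- Derivative of a function of `t` in the direction `e_i`. -/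
def dd (i : Option (Fin 3)) (f : ℝ → ℝ) (t : ℝ) : ℝ :=
  match i with
  | none => deriv f t
  | some _ => 0

/-- `Riem a t i j k l` is the inner product of `R(e_i, e_j) e_k` and `e_l`. -/
def Riem (a : Fin 3 → ℝ → ℝ) (t : ℝ) (i j k l : Option (Fin 3)) : ℝ :=
  dd i (fun r => Gam a r j k l) t - dd j (fun r => Gam a r i k l) t +
    ∑ m, (Gam a t j k m * Gam a t i m l - Gam a t i k m * Gam a t j m l
      - brk a t i j m * Gam a t m k l)

/-- Ricci curvature in the orthonormal frame. -/
def Ric (a : Fin 3 → ℝ → ℝ) (t : ℝ) (j k : Option (Fin 3)) : ℝ :=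
  ∑ i, Riem a t i j k i

/-- The metric `dt^2 + sum_i (a i)^2 (sigma_i)^2` on `(0,T) x SO(3)` is Einstein with constant
`L`. -/
def IsEinstein (a : Fin 3 → ℝ → ℝ) (T L : ℝ) : Prop :=
  ∀ t ∈ Ioo 0 T, ∀ j k, Ric a t j k = if j = k then L else 0

/-- The metric `dt^2 + sum_i (a i)^2 (sigma_i)^2` closes up to a metric on the 4-sphere: the
functions are `C^2` and positive, at `t = 0` the direction `E_0` and at `t = T` the direction
`E_1` collapses, and both singular orbits are Veronese surfaces (projective planes) whose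
isotropy group rotates the normal planes with weight two. -/
structure ClosesUp (a : Fin 3 → ℝ → ℝ) (T : ℝ) : Prop where
  pos_T : 0 < T
  smooth : ∀ i, ContDiff ℝ 2 (a i)
  pos : ∀ i, ∀ t ∈ Ioo 0 T, 0 < a i t
  left : a 0 0 = 0 ∧ deriv (a 0) 0 = 2 ∧ a 1 0 = a 2 0 ∧ 0 < a 1 0 ∧
    deriv (a 1) 0 = -deriv (a 2) 0
  right : a 1 T = 0 ∧ deriv (a 1) T = -2 ∧ a 0 T = a 2 T ∧ 0 < a 0 T ∧
    deriv (a 0) T = -deriv (a 2) T

end

end Pool.Agent.H8S4
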