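import Pool.Agent.H8S4.Core

set_option autoImplicit false

namespace Pool.Agent.H8S4

open Set Filter Topology

noncomputable section

/-- Connection component. -/
def xx (s : ℝ) (a b c : ℝ → ℝ) (t : ℝ) : ℝ := s * deriv a t + cc a b c t

/-- Ricci curvature of the orbits (one component). -/
def rr (a b c : ℝ → ℝ) (t : ℝ) : ℝ :=
  ((a t) ^ 4 - ((b t) ^ 2 - (c t) ^ 2) ^ 2) / (2 * (a t) ^ 2 * (b t) ^ 2 * (c t) ^ 2)

/-- The second order Einstein equation for `a`. -/
def EinA (a b c : ℝ → ℝ) (L t : ℝ) : Prop :=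
  deriv (deriv a) t = a t * (-L + rr a b c t) -
    deriv a t * (deriv b t / b t + deriv c t / c t)

/-- The constraint. -/
def EinC (a b c : ℝ → ℝ) (L t : ℝ) : Prop :=
  rr a b c t + rr b c a t + rr c a b t -
    2 * (deriv a t * deriv b t / (a t * b t) + deriv b t * deriv c t / (b t * c t) +
      deriv c t * deriv a t / (c t * a t)) = 2 * L

variable {a b c : ℝ → ℝ} {L t : ℝ}

theorem hasDerivAt_cc (ha : DifferentiableAt ℝ a t) (hb : DifferentiableAt ℝ b t)
    (hc : DifferentiableAt ℝ c t) (hb0 : b t ≠ 0) (hc0 : c t ≠ 0) :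
    HasDerivAt (cc a b c) (((2 * b t * deriv b t + 2 * c t * deriv c t - 2 * a t * deriv a t) *
      (2 * b t * c t) - ((b t) ^ 2 + (c t) ^ 2 - (a t) ^ 2) *
        (2 * deriv b t * c t + 2 * b t * deriv c t)) / (2 * b t * c t) ^ 2) t := by
  have h1 := (((hb.hasDerivAt.pow 2).add (hc.hasDerivAt.pow 2)).sub (ha.hasDerivAt.pow 2))
  have h2 := (hb.hasDerivAt.const_mul 2).mul hc.hasDerivAt
  have h3 : HasDerivAt (cc a b c) _ t := h1.div h2 (by simp [hb0, hc0])
  refine h3.congr_deriv ?_
  simp only [Pi.add_apply, Pi.sub_apply, Pi.pow_apply]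
  push_cast
  ring

theorem deriv_xx {s : ℝ} (hs : s = 1 ∨ s = -1) (ha : DifferentiableAt ℝ a t)
    (ha' : DifferentiableAt ℝ (deriv a) t)
    (hb : DifferentiableAt ℝ b t) (hc : DifferentiableAt ℝ c t)
    (ha0 : a t ≠ 0) (hb0 : b t ≠ 0) (hc0 : c t ≠ 0)
    (hA : EinA a b c L t) (hC : EinC a b c L t) :
    HasDerivAt (xx s a b c) (-s * (pp b c (xx s a b c) (xx s b c a) (xx s c a b) t * a t)) t := by
  have h1 := (ha'.hasDerivAt.const_mul s).add (hasDerivAt_cc ha hb hc hb0 hc0)
  have h3 : HasDerivAt (xx s a b c) _ t := h1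
  refine h3.congr_deriv ?_
  unfold EinA at hA
  have hL : L = (rr a b c t + rr b c a t + rr c a b t) / 2 -
    (deriv a t * deriv b t / (a t * b t) + deriv b t * deriv c t / (b t * c t) +
      deriv c t * deriv a t / (c t * a t)) := by
    unfold EinC at hC; linarith
  rw [hA, hL]
  simp only [rr, pp, xx, cc]
  generalize deriv a t = a1
  generalize deriv b t = b1
  generalize deriv c t = c1
  generalize a t = a0 at *
  generalize b t = b0 at *
  generalize c t = c0 at *
  rcases hs with rfl | rfl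
  · field_simp
    ring
  · field_simp
    ring

theorem sum_pp {s : ℝ} (hs : s = 1 ∨ s = -1)
    (ha0 : a t ≠ 0) (hb0 : b t ≠ 0) (hc0 : c t ≠ 0) (hC : EinC a b c L t) :
    pp b c (xx s a b c) (xx s b c a) (xx s c a b) t +
      pp c a (xx s b c a) (xx s c a b) (xx s a b c) t +
      pp a b (xx s c a b) (xx s a b c) (xx s b c a) t = L := by
  have hL : L = (rr a b c t + rr b c a t + rr c a b t) / 2 -
    (deriv a t * deriv b t / (a t * b t) + deriv b t * deriv c t / (b t * c t) +
      deriv c t * deriv a t / (c t * a t)) := by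
    unfold EinC at hC; linarith
  rw [hL]
  simp only [rr, pp, xx, cc]
  generalize deriv a t = a1
  generalize deriv b t = b1
  generalize deriv c t = c1
  generalize a t = a0 at *
  generalize b t = b0 at *
  generalize c t = c0 at *
  rcases hs with rfl | rfl
  · field_simp
    ring
  · field_simp
    ring

end

end Pool.Agent.H8S4
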