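import Pool.Agent.H8S4.Solve
import Pool.Agent.H8S4.Def

set_option autoImplicit false

namespace Pool.Agent.H8S4

open Set Filter Topology

theorem deriv_quot {f : ℝ → ℝ} {t : ℝ} (hf : DifferentiableAt ℝ f t)
    (hf' : DifferentiableAt ℝ (deriv f) t) (h0 : f t ≠ 0) :
    deriv (fun r => deriv f r / f r) t = (deriv (deriv f) t * f t - deriv f t * deriv f t) /
      (f t) ^ 2 :=
  (hf'.hasDerivAt.div hf.hasDerivAt h0).deriv

theorem ric_none (a : Fin 3 → ℝ → ℝ) (t : ℝ) (h0 : ∀ i, a i t ≠ 0)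
    (hd : ∀ i, DifferentiableAt ℝ (a i) t) (hd' : ∀ i, DifferentiableAt ℝ (deriv (a i)) t) :
    Ric a t none none = -(deriv (deriv (a 0)) t / a 0 t + deriv (deriv (a 1)) t / a 1 t +
      deriv (deriv (a 2)) t / a 2 t) := by
  have e0 := deriv_quot (hd 0) (hd' 0) (h0 0)
  have e1 := deriv_quot (hd 1) (hd' 1) (h0 1)
  have e2 := deriv_quot (hd 2) (hd' 2) (h0 2)
  have n0 := h0 0
  have n1 := h0 1
  have n2 := h0 2
  simp only [Ric, Riem, Fintype.sum_option, Fin.sum_univ_three, dd, Gam, brk, eps]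
  simp [e0, e1, e2]
  field_simp
  ring

theorem ric_some0 (a : Fin 3 → ℝ → ℝ) (t : ℝ) (h0 : ∀ i, a i t ≠ 0)
    (hd : ∀ i, DifferentiableAt ℝ (a i) t) (hd' : ∀ i, DifferentiableAt ℝ (deriv (a i)) t) :
    Ric a t (some 0) (some 0) = rr (a 0) (a 1) (a 2) t - deriv (deriv (a 0)) t / a 0 t -
      deriv (a 0) t / a 0 t * (deriv (a 1) t / a 1 t + deriv (a 2) t / a 2 t) := by
  have e0 := deriv_quot (hd 0) (hd' 0) (h0 0)
  have n0 := h0 0
  have n1 := h0 1
  have n2 := h0 2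
  simp only [Ric, Riem, Fintype.sum_option, Fin.sum_univ_three, dd, Gam, brk, eps]
  simp [e0, rr]
  field_simp
  ring

theorem ric_some1 (a : Fin 3 → ℝ → ℝ) (t : ℝ) (h0 : ∀ i, a i t ≠ 0)
    (hd : ∀ i, DifferentiableAt ℝ (a i) t) (hd' : ∀ i, DifferentiableAt ℝ (deriv (a i)) t) :
    Ric a t (some 1) (some 1) = rr (a 1) (a 2) (a 0) t - deriv (deriv (a 1)) t / a 1 t -
      deriv (a 1) t / a 1 t * (deriv (a 2) t / a 2 t + deriv (a 0) t / a 0 t) := by
  have e1 := deriv_quot (hd 1) (hd' 1) (h0 1)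
  have n0 := h0 0
  have n1 := h0 1
  have n2 := h0 2
  simp only [Ric, Riem, Fintype.sum_option, Fin.sum_univ_three, dd, Gam, brk, eps]
  simp [e1, rr]
  field_simp
  ring

theorem ric_some2 (a : Fin 3 → ℝ → ℝ) (t : ℝ) (h0 : ∀ i, a i t ≠ 0)
    (hd : ∀ i, DifferentiableAt ℝ (a i) t) (hd' : ∀ i, DifferentiableAt ℝ (deriv (a i)) t) :
    Ric a t (some 2) (some 2) = rr (a 2) (a 0) (a 1) t - deriv (deriv (a 2)) t / a 2 t -
      deriv (a 2) t / a 2 t * (deriv (a 0) t / a 0 t + deriv (a 1) t / a 1 t) := by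
  have e2 := deriv_quot (hd 2) (hd' 2) (h0 2)
  have n0 := h0 0
  have n1 := h0 1
  have n2 := h0 2
  simp only [Ric, Riem, Fintype.sum_option, Fin.sum_univ_three, dd, Gam, brk, eps]
  simp [e2, rr]
  field_simp
  ring

theorem main (a : Fin 3 → ℝ → ℝ) (T L : ℝ) (hc : ClosesUp a T) (hE : IsEinstein a T L) :
    ∃ ρ : ℝ, 0 < ρ ∧ L = 3 / ρ ^ 2 ∧ T = ρ * Real.pi / 3 ∧
      ∀ t ∈ Icc 0 T, a 0 t = 2 * ρ * Real.sin (t / ρ) ∧
        a 1 t = 2 * ρ * Real.sin (Real.pi / 3 - t / ρ) ∧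
        a 2 t = 2 * ρ * Real.sin (Real.pi / 3 + t / ρ) := by
  have hd : ∀ i t, DifferentiableAt ℝ (a i) t := fun i t =>
    ((hc.smooth i).differentiable (by norm_num)) t
  have hd' : ∀ i t, DifferentiableAt ℝ (deriv (a i)) t := fun i t =>
    (((hc.smooth i).deriv' : ContDiff ℝ 1 (deriv (a i))).differentiable (by norm_num)) t
  have hn : ∀ t ∈ Ioo 0 T, ∀ i, a i t ≠ 0 := fun t ht i => (hc.pos i t ht).ne'
  have q0 : ∀ t ∈ Ioo 0 T, EinA (a 0) (a 1) (a 2) L t := by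
    intro t ht
    have h1 := ric_some0 a t (hn t ht) (fun i => hd i t) (fun i => hd' i t)
    rw [hE t ht, if_pos rfl] at h1
    have n0 := hn t ht 0
    unfold EinA
    have h2 : deriv (deriv (a 0)) t = a 0 t * (deriv (deriv (a 0)) t / a 0 t) := by
      field_simp
    rw [h2]
    have h3 : deriv (deriv (a 0)) t / a 0 t = rr (a 0) (a 1) (a 2) t - L -
      deriv (a 0) t / a 0 t * (deriv (a 1) t / a 1 t + deriv (a 2) t / a 2 t) := by linarith
    rw [h3]
    field_simp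
    ring
  have q1 : ∀ t ∈ Ioo 0 T, EinA (a 1) (a 2) (a 0) L t := by
    intro t ht
    have h1 := ric_some1 a t (hn t ht) (fun i => hd i t) (fun i => hd' i t)
    rw [hE t ht, if_pos rfl] at h1
    have n0 := hn t ht 1
    unfold EinA
    have h2 : deriv (deriv (a 1)) t = a 1 t * (deriv (deriv (a 1)) t / a 1 t) := by
      field_simp
    rw [h2]
    have h3 : deriv (deriv (a 1)) t / a 1 t = rr (a 1) (a 2) (a 0) t - L -
      deriv (a 1) t / a 1 t * (deriv (a 2) t / a 2 t + deriv (a 0) t / a 0 t) := by linarith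
    rw [h3]
    field_simp
    ring
  have q2 : ∀ t ∈ Ioo 0 T, EinA (a 2) (a 0) (a 1) L t := by
    intro t ht
    have h1 := ric_some2 a t (hn t ht) (fun i => hd i t) (fun i => hd' i t)
    rw [hE t ht, if_pos rfl] at h1
    have n0 := hn t ht 2
    unfold EinA
    have h2 : deriv (deriv (a 2)) t = a 2 t * (deriv (deriv (a 2)) t / a 2 t) := by
      field_simp
    rw [h2]
    have h3 : deriv (deriv (a 2)) t / a 2 t = rr (a 2) (a 0) (a 1) t - L -
      deriv (a 2) t / a 2 t * (deriv (a 0) t / a 0 t + deriv (a 1) t / a 1 t) := by linarith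
    rw [h3]
    field_simp
    ring
  have q3 : ∀ t ∈ Ioo 0 T, EinC (a 0) (a 1) (a 2) L t := by
    intro t ht
    have r0 := ric_some0 a t (hn t ht) (fun i => hd i t) (fun i => hd' i t)
    have r1 := ric_some1 a t (hn t ht) (fun i => hd i t) (fun i => hd' i t)
    have r2 := ric_some2 a t (hn t ht) (fun i => hd i t) (fun i => hd' i t)
    have rn := ric_none a t (hn t ht) (fun i => hd i t) (fun i => hd' i t)
    rw [hE t ht, if_pos rfl] at r0 r1 r2 rn
    unfold EinC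
    have s1 : deriv (a 0) t * deriv (a 1) t / (a 0 t * a 1 t) =
      deriv (a 0) t / a 0 t * (deriv (a 1) t / a 1 t) := by rw [div_mul_div_comm]
    have s2 : deriv (a 1) t * deriv (a 2) t / (a 1 t * a 2 t) =
      deriv (a 1) t / a 1 t * (deriv (a 2) t / a 2 t) := by rw [div_mul_div_comm]
    have s3 : deriv (a 2) t * deriv (a 0) t / (a 2 t * a 0 t) =
      deriv (a 2) t / a 2 t * (deriv (a 0) t / a 0 t) := by rw [div_mul_div_comm]
    rw [s1, s2, s3]
    linear_combination -r0 - r1 - r2 + rn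
  obtain ⟨l1, l2, l3, l4, l5⟩ := hc.left
  obtain ⟨m1, m2, m3, m4, m5⟩ := hc.right
  exact (EData.mk (hc.smooth 0) (hc.smooth 1) (hc.smooth 2) hc.pos_T (hc.pos 0) (hc.pos 1)
    (hc.pos 2) q0 q1 q2 q3 l1 l2 l3 l4 l5 m1 m2 m3 m4 m5).solve

end Pool.Agent.H8S4
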