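import Pool.Agent.H8S4.Ein

set_option autoImplicit false

namespace Pool.Agent.H8S4

open Set Filter Topology Asymptotics

noncomputable section

/-- Conditions at a singular orbit where `a` collapses. -/
structure LeftEnd (a b c : ℝ → ℝ) (β κ : ℝ) : Prop where
  cA : ContDiff ℝ 2 a
  cB : ContDiff ℝ 2 b
  cC : ContDiff ℝ 2 c
  a0 : a 0 = 0
  a1 : deriv a 0 = 2
  b0 : b 0 = β
  b1 : deriv b 0 = -κ
  c0 : c 0 = β
  c1 : deriv c 0 = κ
  hβ : 0 < β

theorem LeftEnd.swap {a b c : ℝ → ℝ} {β κ : ℝ} (h : LeftEnd a b c β κ) :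
    LeftEnd a c b β (-κ) :=
  ⟨h.cA, h.cC, h.cB, h.a0, h.a1, h.c0, by rw [h.c1]; ring, h.b0, h.b1, h.hβ⟩

/-- Taylor bounds for a `C^2` function. -/
theorem taylor2 {f : ℝ → ℝ} (hf : ContDiff ℝ 2 f) :
    ((fun t => deriv f t - deriv f 0) =O[𝓝[>] (0:ℝ)] fun t => t) ∧
    ((fun t => f t - f 0 - deriv f 0 * t) =O[𝓝[>] (0:ℝ)] fun t => t ^ 2) := by
  have hf1 : ContDiff ℝ 1 (deriv f) := hf.deriv' 
  have hd1 : Differentiable ℝ (deriv f) := hf1.differentiable (by norm_num)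
  have hd0 : Differentiable ℝ f := hf.differentiable (by norm_num)
  have hcont : Continuous (deriv (deriv f)) := hf1.continuous_deriv (by norm_num)
  obtain ⟨K, hK⟩ := (isCompact_Icc (a := (0:ℝ)) (b := 1)).exists_bound_of_continuousOn
    hcont.continuousOn
  have hK0 : 0 ≤ K := (norm_nonneg _).trans (hK 0 ⟨le_refl _, zero_le_one⟩)
  have h1 : ∀ t ∈ Icc (0:ℝ) 1, |deriv f t - deriv f 0| ≤ K * t := by
    intro t ht
    have := (convex_Icc (0:ℝ) 1).norm_image_sub_le_of_norm_deriv_le (f := deriv f) (C := K)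
      (fun τ _ => hd1 τ) (fun τ hτ => hK τ hτ) (left_mem_Icc.2 zero_le_one) ht
    simpa [abs_of_nonneg ht.1] using this
  have h2 : ∀ t ∈ Icc (0:ℝ) 1, |f t - f 0 - deriv f 0 * t| ≤ K * t ^ 2 := by
    intro t ht
    have hg : ∀ τ : ℝ, HasDerivAt (fun r => f r - deriv f 0 * r) (deriv f τ - deriv f 0) τ := by
      intro τ
      have e1 := (hd0 τ).hasDerivAt.sub ((hasDerivAt_id τ).const_mul (deriv f 0))
      have e2 : HasDerivAt (fun r => f r - deriv f 0 * r) _ τ := e1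
      exact e2.congr_deriv (by ring)
    have := (convex_Icc (0:ℝ) t).norm_image_sub_le_of_norm_deriv_le
      (f := fun r => f r - deriv f 0 * r) (C := K * t)
      (fun τ _ => (hg τ).differentiableAt) (fun τ hτ => by
        rw [(hg τ).deriv]
        exact (h1 τ ⟨hτ.1, hτ.2.trans ht.2⟩).trans (mul_le_mul_of_nonneg_left hτ.2 hK0))
      (left_mem_Icc.2 ht.1) (right_mem_Icc.2 ht.1)
    have e : f t - f 0 - deriv f 0 * t = f t - deriv f 0 * t - (f 0 - deriv f 0 * 0) := by ring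
    rw [e]
    calc _ ≤ K * t * ‖t - 0‖ := this
      _ = K * t ^ 2 := by rw [sub_zero, Real.norm_eq_abs, abs_of_nonneg ht.1]; ring
  constructor
  · refine IsBigO.of_bound K ?_
    filter_upwards [Ioo_mem_nhdsGT (zero_lt_one' ℝ)] with t ht
    rw [Real.norm_eq_abs, Real.norm_eq_abs, abs_of_pos ht.1]
    exact h1 t ⟨ht.1.le, ht.2.le⟩
  · refine IsBigO.of_bound K ?_
    filter_upwards [Ioo_mem_nhdsGT (zero_lt_one' ℝ)] with t ht
    rw [Real.norm_eq_abs, Real.norm_eq_abs, abs_of_nonneg (sq_nonneg t)]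
    exact h2 t ⟨ht.1.le, ht.2.le⟩

variable {a b c : ℝ → ℝ} {β κ : ℝ}

theorem bigO_one_of_tendsto {f : ℝ → ℝ} {l : ℝ} (h : Tendsto f (𝓝[>] 0) (𝓝 l)) :
    f =O[𝓝[>] (0:ℝ)] (fun _ => (1:ℝ)) := h.isBigO_one ℝ

theorem tendsto_of_bigO {f : ℝ → ℝ} {l : ℝ} (h : (fun t => f t - l) =O[𝓝[>] (0:ℝ)] fun t => t) :
    Tendsto f (𝓝[>] 0) (𝓝 l) := by
  have h1 : Tendsto (fun t : ℝ => t) (𝓝[>] 0) (𝓝 0) := tendsto_id.mono_left nhdsWithin_le_nhds
  have h2 := h.trans_tendsto h1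
  have := h2.add_const l
  simpa using this

theorem LeftEnd.tb (h : LeftEnd a b c β κ) : Tendsto b (𝓝[>] 0) (𝓝 β) := by
  have := h.cB.continuous.tendsto 0
  rw [h.b0] at this
  exact this.mono_left nhdsWithin_le_nhds

theorem LeftEnd.tc (h : LeftEnd a b c β κ) : Tendsto c (𝓝[>] 0) (𝓝 β) := h.swap.tb

theorem LeftEnd.ta' (h : LeftEnd a b c β κ) : Tendsto (fun t => a t / t) (𝓝[>] 0) (𝓝 2) := by
  have h1 := (taylor2 h.cA).2
  rw [h.a0, h.a1] at h1
  have h2 : (fun t => a t / t - 2) =O[𝓝[>] (0:ℝ)] fun t => t := by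
    have h3 := h1.mul (isBigO_refl (fun t : ℝ => t⁻¹) (𝓝[>] (0:ℝ)))
    refine (h3.congr' ?_ ?_)
    · filter_upwards [self_mem_nhdsWithin] with t ht
      have : t ≠ 0 := ne_of_gt ht
      field_simp
      ring
    · filter_upwards [self_mem_nhdsWithin] with t ht
      have : t ≠ 0 := ne_of_gt ht
      field_simp
  exact tendsto_of_bigO h2

theorem LeftEnd.inv (h : LeftEnd a b c β κ) :
    (fun t => (c t * a t)⁻¹) =O[𝓝[>] (0:ℝ)] fun t => t⁻¹ := by
  have h1 : Tendsto (fun t => (c t * (a t / t))⁻¹) (𝓝[>] 0) (𝓝 ((β * 2)⁻¹)) :=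
    (h.tc.mul h.ta').inv₀ (by have := h.hβ; positivity)
  have h2 := (bigO_one_of_tendsto h1).mul (isBigO_refl (fun t : ℝ => t⁻¹) (𝓝[>] (0:ℝ)))
  refine h2.congr' ?_ ?_
  · filter_upwards [self_mem_nhdsWithin] with t ht
    have : t ≠ 0 := ne_of_gt ht
    rw [← mul_inv]
    congr 1
    field_simp
  · filter_upwards with t
    ring

theorem LeftEnd.cc_b (h : LeftEnd a b c β κ) :
    (fun t => cc b c a t - κ) =O[𝓝[>] (0:ℝ)] fun t => t := by
  have hA := (taylor2 h.cA).2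
  have hB := (taylor2 h.cB).2
  have hC := (taylor2 h.cC).2
  rw [h.a0, h.a1] at hA
  rw [h.b0, h.b1] at hB
  rw [h.c0, h.c1] at hC
  have tid : Tendsto (fun t : ℝ => t) (𝓝[>] 0) (𝓝 0) := tendsto_id.mono_left nhdsWithin_le_nhds
  have tt : (fun t : ℝ => t) =O[𝓝[>] (0:ℝ)] fun t => t := isBigO_refl _ _
  have one_t : (fun t : ℝ => t) =O[𝓝[>] (0:ℝ)] fun _ => (1:ℝ) := bigO_one_of_tendsto tid
  have b1 : b =O[𝓝[>] (0:ℝ)] fun _ => (1:ℝ) := bigO_one_of_tendsto h.tb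
  have c1 : c =O[𝓝[>] (0:ℝ)] fun _ => (1:ℝ) := bigO_one_of_tendsto h.tc
  have kt : (fun t : ℝ => κ * t) =O[𝓝[>] (0:ℝ)] fun _ => (1:ℝ) := one_t.const_mul_left κ
  have cst : (fun _ : ℝ => β) =O[𝓝[>] (0:ℝ)] fun _ => (1:ℝ) := isBigO_const_const _ one_ne_zero _
  -- c - β = O(t)
  have hcβ : (fun t => c t - β) =O[𝓝[>] (0:ℝ)] fun t => t := by
    have e1 : (fun t : ℝ => t ^ 2) =O[𝓝[>] (0:ℝ)] fun t => t := by
      have := tt.mul one_t
      refine this.congr (fun t => by ring) (fun t => by ring)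
    have e2 := (hC.trans e1).add (tt.const_mul_left κ)
    exact e2.congr (fun t => by ring) (fun t => rfl)
  have haO : a =O[𝓝[>] (0:ℝ)] fun t => t := by
    have h1 := (bigO_one_of_tendsto h.ta').mul tt
    refine h1.congr' ?_ ?_
    · filter_upwards [self_mem_nhdsWithin] with t ht
      have : t ≠ 0 := ne_of_gt ht
      field_simp
    · filter_upwards with t
      ring
  have n1 : (fun t => (c t - β - κ * t) * (c t + β + κ * t)) =O[𝓝[>] (0:ℝ)] fun t => t ^ 2 := by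
    have := hC.mul ((c1.add cst).add kt)
    exact this.congr (fun t => rfl) (fun t => by ring)
  have n2 : (fun t => (b t - β - -κ * t) * (b t + β - κ * t)) =O[𝓝[>] (0:ℝ)] fun t => t ^ 2 := by
    have := hB.mul ((b1.add cst).sub kt)
    exact this.congr (fun t => rfl) (fun t => by ring)
  have n3 : (fun t => a t * a t) =O[𝓝[>] (0:ℝ)] fun t => t ^ 2 := by
    have := haO.mul haO
    exact this.congr (fun t => rfl) (fun t => by ring)
  have n4 : (fun t => c t * (a t - 0 - 2 * t)) =O[𝓝[>] (0:ℝ)] fun t => t ^ 2 := by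
    have := c1.mul hA
    exact this.congr (fun t => rfl) (fun t => by ring)
  have n5 : (fun t => t * (c t - β)) =O[𝓝[>] (0:ℝ)] fun t => t ^ 2 := by
    have := tt.mul hcβ
    exact this.congr (fun t => rfl) (fun t => by ring)
  have n6 := ((((n1.sub n2).add n3).sub (n4.const_mul_left (2 * κ))).sub
    (n5.const_mul_left (4 * κ))).mul h.inv
  have n7 := n6.const_mul_left (1 / 2)
  refine n7.congr' ?_ ?_
  · have hp : ∀ᶠ t in 𝓝[>] (0:ℝ), 0 < c t := h.tc.eventually_const_lt h.hβ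
    have hq : ∀ᶠ t in 𝓝[>] (0:ℝ), 0 < a t / t := h.ta'.eventually_const_lt (by norm_num)
    filter_upwards [self_mem_nhdsWithin, hp, hq] with t ht hp hq
    have ht0 : (0:ℝ) < t := ht
    have ha0 : 0 < a t := by
      have := mul_pos hq ht0
      rwa [div_mul_cancel₀ _ ht0.ne'] at this
    unfold cc
    field_simp
    ring
  · filter_upwards [self_mem_nhdsWithin] with t ht
    have : t ≠ 0 := ne_of_gt ht
    field_simp

end

end Pool.Agent.H8S4
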