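import Pool.Agent.H8S4.Left

set_option autoImplicit false

namespace Pool.Agent.H8S4

open Set Filter Topology Asymptotics

variable {a b c : ℝ → ℝ} {β κ s T : ℝ}

theorem LeftEnd.cc_a (h : LeftEnd a b c β κ) : Tendsto (cc a b c) (𝓝[>] 0) (𝓝 1) := by
  have ha : Tendsto a (𝓝[>] 0) (𝓝 0) := by
    have := h.cA.continuous.tendsto 0
    rw [h.a0] at this
    exact this.mono_left nhdsWithin_le_nhds
  have h1 := (((h.tb.pow 2).add (h.tc.pow 2)).sub (ha.pow 2)).div
    ((h.tb.const_mul 2).mul h.tc) (by have := h.hβ; positivity)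
  have e : (β ^ 2 + β ^ 2 - 0 ^ 2) / (2 * β * β) = 1 := by
    have := h.hβ.ne'
    field_simp
    ring
  rw [e] at h1
  exact h1

theorem LeftEnd.cc_aO (h : LeftEnd a b c β κ) :
    (fun t => cc a b c t - 1) =O[𝓝[>] (0:ℝ)] fun t => t := by
  have tid : Tendsto (fun t : ℝ => t) (𝓝[>] 0) (𝓝 0) := tendsto_id.mono_left nhdsWithin_le_nhds
  have tt : (fun t : ℝ => t) =O[𝓝[>] (0:ℝ)] fun t => t := isBigO_refl _ _
  have one_t : (fun t : ℝ => t) =O[𝓝[>] (0:ℝ)] fun _ => (1:ℝ) := bigO_one_of_tendsto tid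
  have e1 : (fun t : ℝ => t ^ 2) =O[𝓝[>] (0:ℝ)] fun t => t :=
    (tt.mul one_t).congr (fun t => by ring) (fun t => by ring)
  have hA := (taylor2 h.cA).2
  have hB := (taylor2 h.cB).2
  have hC := (taylor2 h.cC).2
  rw [h.a0, h.a1] at hA
  rw [h.b0, h.b1] at hB
  rw [h.c0, h.c1] at hC
  have haO : a =O[𝓝[>] (0:ℝ)] fun t => t :=
    ((hA.trans e1).add (tt.const_mul_left 2)).congr (fun t => by ring) (fun t => rfl)
  have hbc : (fun t => b t - c t) =O[𝓝[>] (0:ℝ)] fun t => t :=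
    (((hB.trans e1).sub (hC.trans e1)).sub (tt.const_mul_left (2 * κ))).congr
      (fun t => by ring) (fun t => rfl)
  have hinv : Tendsto (fun t => (2 * b t * c t)⁻¹) (𝓝[>] 0) (𝓝 ((2 * β * β)⁻¹)) :=
    ((h.tb.const_mul 2).mul h.tc).inv₀ (by have := h.hβ; positivity)
  have h1 := (((hbc.mul hbc).sub (haO.mul haO))).mul (bigO_one_of_tendsto hinv)
  have h2 : (fun t : ℝ => t * t * 1) =O[𝓝[>] (0:ℝ)] fun t => t :=
    e1.congr (fun t => by ring) (fun t => rfl)
  have h3 := h1.trans h2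
  refine h3.congr' ?_ (Eventually.of_forall fun _ => rfl)
  have hp : ∀ᶠ t in 𝓝[>] (0:ℝ), 0 < c t := h.tc.eventually_const_lt h.hβ
  have hq : ∀ᶠ t in 𝓝[>] (0:ℝ), 0 < b t := h.tb.eventually_const_lt h.hβ
  filter_upwards [hp, hq] with t hp hq
  unfold cc
  field_simp
  ring

theorem LeftEnd.xO (h : LeftEnd a b c β κ) :
    (fun t => xx s a b c t - (2 * s + 1)) =O[𝓝[>] (0:ℝ)] fun t => t := by
  have h1 := (taylor2 h.cA).1
  rw [h.a1] at h1
  exact ((h1.const_mul_left s).add h.cc_aO).congr (fun t => by unfold xx; ring) (fun t => rfl)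

theorem LeftEnd.yO (h : LeftEnd a b c β κ) :
    (fun t => xx s b c a t - (κ - s * κ)) =O[𝓝[>] (0:ℝ)] fun t => t := by
  have h1 := (taylor2 h.cB).1
  rw [h.b1] at h1
  exact ((h1.const_mul_left s).add h.cc_b).congr (fun t => by unfold xx; ring) (fun t => rfl)

theorem LeftEnd.zO (h : LeftEnd a b c β κ) :
    (fun t => xx s c a b t - (s * κ - κ)) =O[𝓝[>] (0:ℝ)] fun t => t := by
  refine (h.swap.yO (s := s)).congr (fun t => ?_) (fun t => rfl)
  unfold xx
  rw [cc_comm c a b t]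
  ring

theorem LeftEnd.qO (hs : s = 1 ∨ s = -1) (h : LeftEnd a b c β κ) :
    (fun t => pp c a (xx s b c a) (xx s c a b) (xx s a b c) t) =O[𝓝[>] (0:ℝ)]
      fun _ => (1:ℝ) := by
  have hx := h.xO (s := s)
  have hy := h.yO (s := s)
  have hz := h.zO (s := s)
  have hx1 := bigO_one_of_tendsto (tendsto_of_bigO hx)
  have h1 : (fun t => xx s b c a t - xx s c a b t * xx s a b c t) =O[𝓝[>] (0:ℝ)]
      fun t => t := by
    have e1 := (hz.mul hx1).congr (fun t => rfl) (fun t => by ring : ∀ t : ℝ, t * 1 = t)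
    refine ((hy.sub e1).sub (hx.const_mul_left (s * κ - κ))).congr (fun t => ?_) (fun t => rfl)
    rcases hs with rfl | rfl
    · ring
    · ring
  have h2 := h1.mul h.inv
  refine (h2.congr' (Eventually.of_forall fun t => ?_) ?_)
  · simp only [pp, div_eq_mul_inv]
  · filter_upwards [self_mem_nhdsWithin] with t ht
    have : t ≠ 0 := ne_of_gt ht
    field_simp

theorem LeftEnd.rO (hs : s = 1 ∨ s = -1) (h : LeftEnd a b c β κ) :
    (fun t => pp a b (xx s c a b) (xx s a b c) (xx s b c a) t) =O[𝓝[>] (0:ℝ)]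
      fun _ => (1:ℝ) := by
  refine (h.swap.qO hs).congr (fun t => ?_) (fun t => rfl)
  have e1 : xx s c b a t = xx s c a b t := by unfold xx; rw [cc_comm c b a t]
  have e2 : xx s b a c t = xx s b c a t := by unfold xx; rw [cc_comm b a c t]
  have e3 : xx s a c b t = xx s a b c t := by unfold xx; rw [cc_comm a c b t]
  unfold pp
  rw [e1, e2, e3]
  congr 1 <;> ring

theorem LeftEnd.pT (h : LeftEnd a b c β κ) :
    Tendsto (pp b c (xx s a b c) (xx s b c a) (xx s c a b)) (𝓝[>] 0)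
      (𝓝 (((2 * s + 1) - (κ - s * κ) * (s * κ - κ)) / (β * β))) :=
  ((tendsto_of_bigO h.xO).sub ((tendsto_of_bigO h.yO).mul (tendsto_of_bigO h.zO))).div
    (h.tb.mul h.tc) (by have := h.hβ; positivity)

theorem eventually_abs_le {f : ℝ → ℝ} (h : f =O[𝓝[>] (0:ℝ)] fun _ => (1:ℝ)) :
    ∃ M : ℝ, ∀ᶠ t in 𝓝[>] (0:ℝ), |f t| ≤ M := by
  obtain ⟨M, hM⟩ := h.bound
  refine ⟨M, hM.mono fun t ht => ?_⟩
  simpa using ht

theorem LeftEnd.w0 (hs : s = 1 ∨ s = -1) (h : LeftEnd a b c β κ) (hT : 0 < T)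
    (hX : XSys s a b c (xx s a b c) (xx s b c a) (xx s c a b) T) :
    Tendsto (fun t => pp c a (xx s b c a) (xx s c a b) (xx s a b c) t -
      pp a b (xx s c a b) (xx s a b c) (xx s b c a) t) (𝓝[>] 0) (𝓝 0) := by
  set x := xx s a b c with hx
  set y := xx s b c a with hy
  set z := xx s c a b with hz
  have hq := h.qO hs
  have hr := h.rO hs
  have hp := bigO_one_of_tendsto (h.pT (s := s))
  rw [← hx, ← hy, ← hz] at hq hr hp
  have hY : (fun t => y t / b t) =O[𝓝[>] (0:ℝ)] fun _ => (1:ℝ) :=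
    bigO_one_of_tendsto ((tendsto_of_bigO h.yO).div h.tb h.hβ.ne')
  have hZ : (fun t => z t / c t) =O[𝓝[>] (0:ℝ)] fun _ => (1:ℝ) :=
    bigO_one_of_tendsto ((tendsto_of_bigO h.zO).div h.tc h.hβ.ne')
  have hw : (fun t => pp c a y z x t - pp a b z x y t) =O[𝓝[>] (0:ℝ)] fun _ => (1:ℝ) :=
    hq.sub hr
  have hg : (fun t => s * ((pp b c x y z t - pp c a y z x t) * (z t / c t) -
      (pp b c x y z t - pp a b z x y t) * (y t / b t))) =O[𝓝[>] (0:ℝ)] fun _ => (1:ℝ) := by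
    have := (((hp.sub hq).mul hZ).sub ((hp.sub hr).mul hY)).const_mul_left s
    exact this.congr (fun t => rfl) (fun t => by ring)
  obtain ⟨M₁, hM₁⟩ := eventually_abs_le hw
  obtain ⟨M₂, hM₂⟩ := eventually_abs_le hg
  have hh : ∀ᶠ t in 𝓝[>] (0:ℝ), 1 ≤ 2 * t * (2 * s * (x t / a t)) := by
    have e1 : Tendsto (fun t => 4 * s * (x t / (a t / t))) (𝓝[>] 0)
        (𝓝 (4 * s * ((2 * s + 1) / 2))) :=
      ((tendsto_of_bigO h.xO).div h.ta' two_ne_zero).const_mul (4 * s)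
    have e2 : (1:ℝ) < 4 * s * ((2 * s + 1) / 2) := by
      rcases hs with rfl | rfl <;> norm_num
    have hq : ∀ᶠ t in 𝓝[>] (0:ℝ), 0 < a t / t := h.ta'.eventually_const_lt (by norm_num)
    filter_upwards [e1.eventually_const_lt e2, self_mem_nhdsWithin, hq] with t ht ht0 hq
    have ht0' : (0:ℝ) < t := ht0
    have ha0 : 0 < a t := by
      have := mul_pos hq ht0'
      rwa [div_mul_cancel₀ _ ht0'.ne'] at this
    have e3 : 2 * t * (2 * s * (x t / a t)) = 4 * s * (x t / (a t / t)) := by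
      field_simp
      ring
    rw [e3]
    exact ht.le
  obtain ⟨e, he, hpe⟩ := mem_nhdsGT_iff_exists_Ioo_subset.1 (hM₁.and (hM₂.and hh))
  have he0 : 0 < e := he
  refine singular (w := fun t => pp c a y z x t - pp a b z x y t)
    (h := fun t => 2 * s * (x t / a t))
    (g := fun t => s * ((pp b c x y z t - pp c a y z x t) * (z t / c t) -
      (pp b c x y z t - pp a b z x y t) * (y t / b t)))
    (ε := min e T) (M := max M₁ M₂) (lt_min he0 hT) ?_ ?_ ?_ ?_
  · intro τ hτ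
    have hτ' : τ ∈ Ioo 0 T := ⟨hτ.1, hτ.2.trans_le (min_le_right _ _)⟩
    have e1 : HasDerivAt (fun t => pp c a y z x t - pp a b z x y t) _ τ :=
      (hX.rot.dp hτ').sub (hX.rot.rot.dp hτ')
    refine e1.congr_deriv ?_
    ring
  · intro τ hτ
    exact (hpe ⟨hτ.1, hτ.2.trans_le (min_le_left _ _)⟩).2.2
  · intro τ hτ
    exact (hpe ⟨hτ.1, hτ.2.trans_le (min_le_left _ _)⟩).1.trans (le_max_left _ _)
  · intro τ hτ
    exact (hpe ⟨hτ.1, hτ.2.trans_le (min_le_left _ _)⟩).2.1.trans (le_max_right _ _)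

end Pool.Agent.H8S4
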