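import Pool.Agent.H8S4.Conv2

set_option autoImplicit false

namespace Pool.Agent.H8S4

open Set Filter Topology

/-- The functions `a i` of the round 4-sphere of radius `ρ`. -/
noncomputable def roundA (ρ : ℝ) : Fin 3 → ℝ → ℝ :=
  ![fun t => 2 * ρ * Real.sin (t / ρ), fun t => 2 * ρ * Real.sin (Real.pi / 3 - t / ρ),
    fun t => 2 * ρ * Real.sin (Real.pi / 3 + t / ρ)]

theorem closesUp_roundA (ρ : ℝ) (hρ : 0 < ρ) : ClosesUp (roundA ρ) (ρ * Real.pi / 3) := by
  have hpi := Real.pi_pos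
  have d0 : ∀ r : ℝ, HasDerivAt (fun r => r / ρ) (1 / ρ) r := fun r => (hasDerivAt_id r).div_const ρ
  have g0 : ∀ t, HasDerivAt (roundA ρ 0) (2 * Real.cos (t / ρ)) t := fun t => by
    refine (((d0 t).sin).const_mul (2 * ρ)).congr_deriv ?_
    field_simp
  have g1 : ∀ t, HasDerivAt (roundA ρ 1) (-(2 * Real.cos (Real.pi / 3 - t / ρ))) t := fun t => by
    refine ((((d0 t).const_sub (Real.pi / 3)).sin).const_mul (2 * ρ)).congr_deriv ?_
    field_simp
  have g2 : ∀ t, HasDerivAt (roundA ρ 2) (2 * Real.cos (Real.pi / 3 + t / ρ)) t := fun t => by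
    refine ((((d0 t).const_add (Real.pi / 3)).sin).const_mul (2 * ρ)).congr_deriv ?_
    field_simp
  have hT : ρ * Real.pi / 3 / ρ = Real.pi / 3 := by field_simp
  have hs3 : Real.sin (Real.pi / 3 + Real.pi / 3) = Real.sin (Real.pi / 3) := by
    rw [← Real.sin_pi_sub]; congr 1; ring
  have hc3 : Real.cos (Real.pi / 3 + Real.pi / 3) = -Real.cos (Real.pi / 3) := by
    rw [← Real.cos_pi_sub]; congr 1; ring
  have hsp : 0 < Real.sin (Real.pi / 3) :=
    Real.sin_pos_of_pos_of_lt_pi (by linarith) (by linarith)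
  refine ⟨by positivity, ?_, ?_, ⟨?_, ?_, ?_, ?_, ?_⟩, ⟨?_, ?_, ?_, ?_, ?_⟩⟩
  · intro i
    fin_cases i
    · show ContDiff ℝ 2 (fun t => 2 * ρ * Real.sin (t / ρ))
      fun_prop
    · show ContDiff ℝ 2 (fun t => 2 * ρ * Real.sin (Real.pi / 3 - t / ρ))
      fun_prop
    · show ContDiff ℝ 2 (fun t => 2 * ρ * Real.sin (Real.pi / 3 + t / ρ))
      fun_prop
  · intro i t ht
    have hθ0 : 0 < t / ρ := div_pos ht.1 hρ
    have hθ1 : t / ρ < Real.pi / 3 := by
      rw [div_lt_iff₀ hρ]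
      have := ht.2
      linarith
    fin_cases i
    · exact mul_pos (by positivity) (Real.sin_pos_of_pos_of_lt_pi hθ0 (by linarith))
    · exact mul_pos (by positivity)
        (Real.sin_pos_of_pos_of_lt_pi (by linarith : 0 < Real.pi / 3 - t / ρ) (by linarith))
    · exact mul_pos (by positivity)
        (Real.sin_pos_of_pos_of_lt_pi (by linarith : 0 < Real.pi / 3 + t / ρ) (by linarith))
  · show 2 * ρ * Real.sin (0 / ρ) = 0
    simp
  · rw [(g0 0).deriv]; simp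
  · show 2 * ρ * Real.sin (Real.pi / 3 - 0 / ρ) = 2 * ρ * Real.sin (Real.pi / 3 + 0 / ρ)
    simp
  · show 0 < 2 * ρ * Real.sin (Real.pi / 3 - 0 / ρ)
    rw [zero_div, sub_zero]
    positivity
  · rw [(g1 0).deriv, (g2 0).deriv]; simp
  · show 2 * ρ * Real.sin (Real.pi / 3 - ρ * Real.pi / 3 / ρ) = 0
    rw [hT]; simp
  · rw [(g1 _).deriv, hT]; simp
  · show 2 * ρ * Real.sin (ρ * Real.pi / 3 / ρ) =
      2 * ρ * Real.sin (Real.pi / 3 + ρ * Real.pi / 3 / ρ)
    rw [hT, hs3]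
  · show 0 < 2 * ρ * Real.sin (ρ * Real.pi / 3 / ρ)
    rw [hT]
    positivity
  · rw [(g0 _).deriv, (g2 _).deriv, hT, hc3]; ring

end Pool.Agent.H8S4
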