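import Pool.Agent.H8S4.XSys

set_option autoImplicit false

namespace Pool.Agent.H8S4

open Set Filter Topology

variable {a b c x y z : ℝ → ℝ} {T : ℝ}

theorem XSys.cont_x {s : ℝ} (h : XSys s a b c x y z T) {t : ℝ} (ht : t ∈ Ioo 0 T) :
    ContinuousAt x t := (h.dx t ht).continuousAt

theorem XSys.dyz (h : XSys 1 a b c x y z T) {t : ℝ} (ht : t ∈ Ioo 0 T) :
    HasDerivAt (fun r => y r * z r)
      (-(b t / (c t * a t) + c t / (a t * b t)) * (y t * z t) +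
        x t * (b t * (z t) ^ 2 / (c t * a t) + c t * (y t) ^ 2 / (a t * b t))) t := by
  have ha := (h.ap t ht).ne'
  have hb := (h.bp t ht).ne'
  have hc := (h.cp t ht).ne'
  have h1 : HasDerivAt (fun r => y r * z r) _ t := (h.dy t ht).mul (h.dz t ht)
  refine h1.congr_deriv ?_
  simp only [pp]
  field_simp
  ring

/-- Step A. -/
theorem yz_nonneg (h : XSys 1 a b c x y z T)
    (hy0 : Tendsto y (𝓝[>] 0) (𝓝 0)) (hz0 : Tendsto z (𝓝[>] 0) (𝓝 0))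
    {t₀ : ℝ} (ht₀ : t₀ ∈ Ioo 0 T) (hx : ∀ τ ∈ Ioo 0 t₀, 0 < x τ) : 0 ≤ y t₀ * z t₀ := by
  by_contra hneg
  push Not at hneg
  have hl : Tendsto (fun t => y t * z t) (𝓝[>] 0) (𝓝 0) := by
    simpa using hy0.mul hz0
  have hev : ∀ᶠ t in 𝓝[>] (0:ℝ), y t₀ * z t₀ / 2 < y t * z t :=
    hl.eventually_const_lt (by linarith)
  obtain ⟨t₁, h1, h2⟩ := (hev.and (Ioo_mem_nhdsGT ht₀.1)).exists
  have h3 := barrier (f := fun r => y r * z r)
    (f' := fun t => (-(b t / (c t * a t) + c t / (a t * b t)) * (y t * z t) +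
        x t * (b t * (z t) ^ 2 / (c t * a t) + c t * (y t) ^ 2 / (a t * b t))))
    (s := t₁) (t := t₀) (l := y t₀ * z t₀ / 2) h2.2.le
    (fun τ hτ => h.dyz ⟨h2.1.trans_le hτ.1, hτ.2.trans_lt ht₀.2⟩) h1.le
    (fun τ hτ he => by
      have hτ' : τ ∈ Ioo 0 T := ⟨h2.1.trans_le hτ.1, hτ.2.trans ht₀.2⟩
      have ha := h.ap τ hτ'
      have hb := h.bp τ hτ'
      have hc := h.cp τ hτ'
      have hxx := hx τ ⟨h2.1.trans_le hτ.1, hτ.2⟩
      rw [he]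
      have e1 : 0 < b τ / (c τ * a τ) + c τ / (a τ * b τ) := by positivity
      have e2 : 0 ≤ x τ * (b τ * (z τ) ^ 2 / (c τ * a τ) + c τ * (y τ) ^ 2 / (a τ * b τ)) := by
        positivity
      nlinarith)
  linarith

/-- Step B. -/
theorem x_pos (h : XSys 1 a b c x y z T) (hx0 : Tendsto x (𝓝[>] 0) (𝓝 3))
    (hy0 : Tendsto y (𝓝[>] 0) (𝓝 0)) (hz0 : Tendsto z (𝓝[>] 0) (𝓝 0)) :
    ∀ t ∈ Ioo 0 T, 0 < x t := by
  by_contra hcon
  push Not at hcon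
  obtain ⟨t₂, ht₂, hx₂⟩ := hcon
  have hT : 0 < T := ht₂.1.trans ht₂.2
  have hev : ∀ᶠ t in 𝓝[>] (0:ℝ), 0 < x t := hx0.eventually_const_lt (by norm_num)
  obtain ⟨e, he, hpe⟩ := mem_nhdsGT_iff_exists_Ioo_subset.1 hev
  have he0 : 0 < e := he
  set t₁ := min (e / 2) (t₂ / 2) with ht₁
  have ht₁0 : 0 < t₁ := lt_min (by linarith) (by linarith [ht₂.1])
  have ht₁e : t₁ < e := (min_le_left _ _).trans_lt (by linarith)
  have ht₁2 : t₁ < t₂ := (min_le_right _ _).trans_lt (by linarith [ht₂.1])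
  have hcomp : IsCompact ({τ ∈ Icc t₁ t₂ | x τ ≤ 0}) := by
    have hcl : IsClosed ({τ ∈ Icc t₁ t₂ | x τ ≤ 0}) := by
      have : ContinuousOn x (Icc t₁ t₂) := fun τ hτ =>
        (h.cont_x ⟨ht₁0.trans_le hτ.1, hτ.2.trans_lt ht₂.2⟩).continuousWithinAt
      exact this.preimage_isClosed_of_isClosed isClosed_Icc isClosed_Iic
    exact isCompact_Icc.of_isClosed_subset hcl (fun τ hτ => hτ.1)
  obtain ⟨m, hm, hmin⟩ := hcomp.exists_isLeast ⟨t₂, ⟨right_mem_Icc.2 ht₁2.le, hx₂⟩⟩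
  have hmT : m ∈ Ioo 0 T := ⟨ht₁0.trans_le hm.1.1, hm.1.2.trans_lt ht₂.2⟩
  have hxm : ∀ τ ∈ Ioo 0 m, 0 < x τ := by
    intro τ hτ
    by_cases h1 : τ < t₁
    · exact hpe ⟨hτ.1, h1.trans ht₁e⟩
    · push Not at h1
      by_contra h2
      push Not at h2
      exact absurd (hmin ⟨⟨h1, hτ.2.le.trans hm.1.2⟩, h2⟩) (not_le.2 hτ.2)
  have hx1 : 0 < x t₁ := hpe ⟨ht₁0, ht₁e⟩
  have hcont : ContinuousOn (fun t => a t / (b t * c t)) (Icc t₁ m) := by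
    intro τ hτ
    have hτ' : τ ∈ Ioo 0 T := ⟨ht₁0.trans_le hτ.1, hτ.2.trans_lt hmT.2⟩
    exact ((h.da τ hτ').continuousAt.div ((h.db τ hτ').continuousAt.mul (h.dc τ hτ').continuousAt)
      (mul_pos (h.bp τ hτ') (h.cp τ hτ')).ne').continuousWithinAt
  obtain ⟨K, hK⟩ := isCompact_Icc.exists_bound_of_continuousOn hcont
  have hd : ∀ τ ∈ Icc t₁ m, HasDerivAt (fun r => x t₁ * Real.exp (-K * (r - t₁)) - x r)
      (x t₁ * (Real.exp (-K * (τ - t₁)) * (-K)) - (-1) * (pp b c x y z τ * a τ)) τ := by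
    intro τ hτ
    have hτ' : τ ∈ Ioo 0 T := ⟨ht₁0.trans_le hτ.1, hτ.2.trans_lt hmT.2⟩
    have h1 : HasDerivAt (fun r : ℝ => -K * (r - t₁)) (-K) τ := by
      simpa using ((hasDerivAt_id τ).sub_const t₁).const_mul (-K)
    exact (h1.exp.const_mul _).sub (h.dx τ hτ')
  have hfin := gron (K := -K) hm.1.1 hd (by simp) (fun τ hτ => by
    have hτ0 : 0 < τ := ht₁0.trans hτ.1
    have hτ' : τ ∈ Ioo 0 T := ⟨hτ0, hτ.2.trans hmT.2⟩
    have ha := h.ap τ hτ'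
    have hb := h.bp τ hτ'
    have hc := h.cp τ hτ'
    have h1 := yz_nonneg h hy0 hz0 hτ' (fun r hr => hxm r ⟨hr.1, hr.2.trans hτ.2⟩)
    have h2 := hxm τ ⟨hτ0, hτ.2⟩
    have h3 : a τ / (b τ * c τ) ≤ K := (le_abs_self _).trans (hK τ ⟨hτ.1.le, hτ.2.le⟩)
    have h4 : pp b c x y z τ * a τ = a τ / (b τ * c τ) * (x τ - y τ * z τ) := by
      simp only [pp]; field_simp
    have h5 : 0 < a τ / (b τ * c τ) := by positivity
    rw [h4]
    have h6 : a τ / (b τ * c τ) * (x τ - y τ * z τ) ≤ K * x τ := by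
      nlinarith [mul_nonneg h5.le h1, mul_le_mul_of_nonneg_right h3 h2.le]
    nlinarith)
  have h7 : 0 < x t₁ * Real.exp (-K * (m - t₁)) := mul_pos hx1 (Real.exp_pos _)
  have h8 := hm.2
  linarith

/-- Step C: at a zero of `y z` both vanish. -/
theorem yz_pos (h : XSys 1 a b c x y z T) (hx0 : Tendsto x (𝓝[>] 0) (𝓝 3))
    (hy0 : Tendsto y (𝓝[>] 0) (𝓝 0)) (hz0 : Tendsto z (𝓝[>] 0) (𝓝 0))
    (hyT : Tendsto y (𝓝[<] T) (𝓝 (-1))) :
    ∀ t ∈ Ioo 0 T, 0 < y t * z t := by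
  have hx := x_pos h hx0 hy0 hz0
  have hnn : ∀ t ∈ Ioo 0 T, 0 ≤ y t * z t := fun t ht =>
    yz_nonneg h hy0 hz0 ht (fun τ hτ => hx τ ⟨hτ.1, hτ.2.trans ht.2⟩)
  intro t₀ ht₀
  rcases (hnn t₀ ht₀).lt_or_eq with h0 | h0
  · exact h0
  exfalso
  have hmin : IsLocalMin (fun r => y r * z r) t₀ := by
    filter_upwards [Ioo_mem_nhds ht₀.1 ht₀.2] with τ hτ
    rw [← h0]; exact hnn τ hτ
  have hd := hmin.hasDerivAt_eq_zero (h.dyz ht₀)
  rw [← h0] at hd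
  have ha := h.ap t₀ ht₀
  have hb := h.bp t₀ ht₀
  have hc := h.cp t₀ ht₀
  have hxx := hx t₀ ht₀
  have e1 : b t₀ * (z t₀) ^ 2 / (c t₀ * a t₀) + c t₀ * (y t₀) ^ 2 / (a t₀ * b t₀) = 0 := by
    have : x t₀ * (b t₀ * (z t₀) ^ 2 / (c t₀ * a t₀) + c t₀ * (y t₀) ^ 2 / (a t₀ * b t₀)) = 0 := by
      linarith
    exact (mul_eq_zero.1 this).resolve_left hxx.ne'
  have e2 : 0 ≤ b t₀ * (z t₀) ^ 2 / (c t₀ * a t₀) := by positivity
  have e3 : 0 ≤ c t₀ * (y t₀) ^ 2 / (a t₀ * b t₀) := by positivity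
  have e4 : c t₀ * (y t₀) ^ 2 / (a t₀ * b t₀) = 0 := by linarith
  have e5 : b t₀ * (z t₀) ^ 2 / (c t₀ * a t₀) = 0 := by linarith
  have hyz : y t₀ = 0 := by
    have := (div_eq_zero_iff.1 e4).resolve_right (by positivity)
    simpa [hc.ne'] using this
  have hzz : z t₀ = 0 := by
    have := (div_eq_zero_iff.1 e5).resolve_right (by positivity)
    simpa [hb.ne'] using this
  -- uniqueness
  have hzero : ∀ t₁ ∈ Ioo t₀ T, y t₁ = 0 := by
    intro t₁ ht₁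
    have hcont : ContinuousOn (fun t => x t * (b t / (c t * a t) + c t / (a t * b t)))
        (Icc t₀ t₁) := by
      intro τ hτ
      have hτ' : τ ∈ Ioo 0 T := ⟨ht₀.1.trans_le hτ.1, hτ.2.trans_lt ht₁.2⟩
      have ca := (h.da τ hτ').continuousAt
      have cb := (h.db τ hτ').continuousAt
      have c3 := (h.dc τ hτ').continuousAt
      have pa := (h.ap τ hτ').ne'
      have pb := (h.bp τ hτ').ne'
      have pc := (h.cp τ hτ').ne'
      exact ((h.cont_x hτ').mul ((cb.div (c3.mul ca) (mul_ne_zero pc pa)).add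
        (c3.div (ca.mul cb) (mul_ne_zero pa pb)))).continuousWithinAt
    obtain ⟨K, hK⟩ := isCompact_Icc.exists_bound_of_continuousOn hcont
    have hd2 : ∀ τ ∈ Icc t₀ t₁, HasDerivAt (fun r => (y r) ^ 2 + (z r) ^ 2)
        (2 * y τ * (-1 * (pp c a y z x τ * b τ)) + 2 * z τ * (-1 * (pp a b z x y τ * c τ))) τ := by
      intro τ hτ
      have hτ' : τ ∈ Ioo 0 T := ⟨ht₀.1.trans_le hτ.1, hτ.2.trans_lt ht₁.2⟩
      have h1 : HasDerivAt (fun r => (y r) ^ 2 + (z r) ^ 2) _ τ :=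
        ((h.dy τ hτ').pow 2).add ((h.dz τ hτ').pow 2)
      refine h1.congr_deriv ?_
      push_cast
      ring
    have hg := gron (K := K) ht₁.1.le hd2 (by rw [hyz, hzz]; norm_num) (fun τ hτ => by
      have hτ' : τ ∈ Ioo 0 T := ⟨ht₀.1.trans hτ.1, hτ.2.trans ht₁.2⟩
      have ha := h.ap τ hτ'
      have hb := h.bp τ hτ'
      have hc := h.cp τ hτ'
      have hk : x τ * (b τ / (c τ * a τ) + c τ / (a τ * b τ)) ≤ K :=
        (le_abs_self _).trans (hK τ ⟨hτ.1.le, hτ.2.le⟩)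
      have e : 2 * y τ * (-1 * (pp c a y z x τ * b τ)) + 2 * z τ * (-1 * (pp a b z x y τ * c τ))
          = -2 * (b τ / (c τ * a τ) * (y τ) ^ 2 + c τ / (a τ * b τ) * (z τ) ^ 2) +
            2 * (x τ * (b τ / (c τ * a τ) + c τ / (a τ * b τ))) * (y τ * z τ) := by
        simp only [pp]; field_simp; ring
      rw [e]
      have p1 : 0 < b τ / (c τ * a τ) := by positivity
      have p2 : 0 < c τ / (a τ * b τ) := by positivity
      have p3 : 0 ≤ x τ * (b τ / (c τ * a τ) + c τ / (a τ * b τ)) := by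
        have := hx τ hτ'
        positivity
      have p4 : 2 * (y τ * z τ) ≤ (y τ) ^ 2 + (z τ) ^ 2 := by nlinarith [sq_nonneg (y τ - z τ)]
      have p5 : 0 ≤ (y τ) ^ 2 + (z τ) ^ 2 := by positivity
      have p6 := mul_le_mul_of_nonneg_left p4 p3
      have p7 := mul_le_mul_of_nonneg_right hk p5
      have p8 : 0 ≤ b τ / (c τ * a τ) * (y τ) ^ 2 := by positivity
      have p9 : 0 ≤ c τ / (a τ * b τ) * (z τ) ^ 2 := by positivity
      nlinarith)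
    nlinarith [sq_nonneg (y t₁), sq_nonneg (z t₁)]
  have hev : ∀ᶠ t in 𝓝[<] T, y t = 0 := by
    filter_upwards [Ioo_mem_nhdsLT ht₀.2] with t ht using hzero t ht
  have hlim : Tendsto y (𝓝[<] T) (𝓝 0) :=
    tendsto_const_nhds.congr' (hev.mono fun t ht => ht.symm)
  have := tendsto_nhds_unique hlim hyT
  norm_num at this

/-- Step D. -/
theorem y_neg (h : XSys 1 a b c x y z T) (hx0 : Tendsto x (𝓝[>] 0) (𝓝 3))
    (hy0 : Tendsto y (𝓝[>] 0) (𝓝 0)) (hz0 : Tendsto z (𝓝[>] 0) (𝓝 0))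
    (hyT : Tendsto y (𝓝[<] T) (𝓝 (-1))) :
    ∀ t ∈ Ioo 0 T, y t < 0 ∧ z t < 0 := by
  have hp := yz_pos h hx0 hy0 hz0 hyT
  have hy : ∀ t ∈ Ioo 0 T, y t < 0 := by
    intro t₀ ht₀
    by_contra hc
    push Not at hc
    have hev : ∀ᶠ t in 𝓝[<] T, y t < 0 := hyT.eventually_lt_const (by norm_num)
    obtain ⟨t₁, h1, h2⟩ := (hev.and (Ioo_mem_nhdsLT ht₀.2)).exists
    have hcont : ContinuousOn y (Icc t₀ t₁) := fun τ hτ =>
      (h.dy τ ⟨ht₀.1.trans_le hτ.1, hτ.2.trans_lt h2.2⟩).continuousAt.continuousWithinAt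
    obtain ⟨τ, hτ, hτ0⟩ := intermediate_value_Icc' h2.1.le hcont (show (0:ℝ) ∈ Icc (y t₁) (y t₀) from
      ⟨h1.le, hc⟩)
    have := hp τ ⟨ht₀.1.trans_le hτ.1, hτ.2.trans_lt h2.2⟩
    rw [hτ0] at this
    simp at this
  intro t ht
  have h1 := hy t ht
  have h2 := hp t ht
  refine ⟨h1, ?_⟩
  by_contra hc
  push Not at hc
  nlinarith

end Pool.Agent.H8S4
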