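import Pool.Agent.H8S4.Data

set_option autoImplicit false

namespace Pool.Agent.H8S4

open Set Filter Topology Asymptotics

variable {a b c : ℝ → ℝ} {T L : ℝ}

/-- All lengths are harmonic oscillations. -/
theorem EData.osc (h : EData a b c T L) : ∀ t ∈ Ioo 0 T,
    deriv (deriv a) t = -(L / 3) * a t ∧ deriv (deriv c) t = -(L / 3) * c t := by
  intro t ht
  have hX := h.xsys (s := 1) (Or.inl rfl)
  have hY := h.xsys (s := -1) (Or.inr rfl)
  have hflat := (h.flat t ht).1
  have hflat' := (h.flat t ht).2.2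
  -- negative half via the mirror
  have hm := h.mirror
  have htm : T - t ∈ Ioo 0 T := ⟨by linarith [ht.2], by linarith [ht.1]⟩
  have hmf := (hm.flat (T - t) htm).2.1
  have hmf' := (hm.flat (T - t) htm).2.2
  have e1 : xx 1 (fun t => b (T - t)) (fun t => a (T - t)) (fun t => c (T - t)) (T - t)
      = xx (-1) b c a t := by rw [xx_mirror, xx_comm, sub_sub_cancel]
  have e2 : xx 1 (fun t => a (T - t)) (fun t => c (T - t)) (fun t => b (T - t)) (T - t)
      = xx (-1) a b c t := by rw [xx_mirror, xx_comm, sub_sub_cancel]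
  have e3 : xx 1 (fun t => c (T - t)) (fun t => b (T - t)) (fun t => a (T - t)) (T - t)
      = xx (-1) c a b t := by rw [xx_mirror, xx_comm, sub_sub_cancel]
  have f1 : pp b c (xx (-1) a b c) (xx (-1) b c a) (xx (-1) c a b) t = L / 3 := by
    rw [← hmf]
    unfold pp
    rw [e1, e2, e3]
    simp only [sub_sub_cancel]
    congr 1 <;> ring
  have f2 : pp a b (xx (-1) c a b) (xx (-1) a b c) (xx (-1) b c a) t = L / 3 := by
    rw [← hmf']
    unfold pp
    rw [e1, e2, e3]
    simp only [sub_sub_cancel]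
    congr 1 <;> ring
  have d1 := hX.dx t ht
  have d2 := hY.dx t ht
  rw [hflat] at d1
  rw [f1] at d2
  have d3 : HasDerivAt (fun r => xx 1 a b c r - xx (-1) a b c r) _ t := d1.sub d2
  have e4 : (fun r => xx 1 a b c r - xx (-1) a b c r) = fun r => 2 * deriv a r := by
    funext r; unfold xx; ring
  rw [e4] at d3
  have hd' : DifferentiableAt ℝ (deriv a) t :=
    ((h.cA.deriv' : ContDiff ℝ 1 (deriv a)).differentiable (by norm_num)) t
  have d4 := d3.unique (hd'.hasDerivAt.const_mul 2)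
  have c1 := hX.dz t ht
  have c2 := hY.dz t ht
  rw [hflat'] at c1
  rw [f2] at c2
  have c3 : HasDerivAt (fun r => xx 1 c a b r - xx (-1) c a b r) _ t := c1.sub c2
  have e5 : (fun r => xx 1 c a b r - xx (-1) c a b r) = fun r => 2 * deriv c r := by
    funext r; unfold xx; ring
  rw [e5] at c3
  have hc' : DifferentiableAt ℝ (deriv c) t :=
    ((h.cC.deriv' : ContDiff ℝ 1 (deriv c)).differentiable (by norm_num)) t
  have c4 := c3.unique (hc'.hasDerivAt.const_mul 2)
  constructor <;> linarith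

theorem EData.L_eq (h : EData a b c T L) : L / 3 = 3 / (b 0 * b 0) := by
  have hp0 := h.left.pT (s := 1)
  have hev : ∀ᶠ t in 𝓝[>] (0:ℝ), pp b c (xx 1 a b c) (xx 1 b c a) (xx 1 c a b) t = L / 3 := by
    filter_upwards [Ioo_mem_nhdsGT h.hT] with t ht using (h.flat t ht).1
  have h2 : Tendsto (pp b c (xx 1 a b c) (xx 1 b c a) (xx 1 c a b)) (𝓝[>] 0) (𝓝 (L / 3)) :=
    tendsto_const_nhds.congr' (hev.mono fun t ht => ht.symm)
  have := tendsto_nhds_unique h2 hp0
  rw [this]
  congr 1
  ring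

/-- Explicit solution of the oscillator. -/
theorem osc_solve {f : ℝ → ℝ} {w : ℝ} (hf : ContDiff ℝ 2 f)
    (h : ∀ t ∈ Ioo 0 T, deriv (deriv f) t = -(w ^ 2) * f t) :
    ∀ t ∈ Icc 0 T, w * f t = w * f 0 * Real.cos (w * t) + deriv f 0 * Real.sin (w * t) := by
  have hf1 : ContDiff ℝ 1 (deriv f) := hf.deriv'
  have hd0 : Differentiable ℝ f := hf.differentiable (by norm_num)
  have hd1 : Differentiable ℝ (deriv f) := hf1.differentiable (by norm_num)
  have U : ∀ t, HasDerivAt (fun t => w * f t * Real.cos (w * t) - deriv f t * Real.sin (w * t))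
      (-(deriv (deriv f) t + w ^ 2 * f t) * Real.sin (w * t)) t := by
    intro t
    have hw : HasDerivAt (fun t : ℝ => w * t) w t := by
      simpa using (hasDerivAt_id t).const_mul w
    have e1 := (((hd0 t).hasDerivAt.const_mul w).mul hw.cos).sub ((hd1 t).hasDerivAt.mul hw.sin)
    have e2 : HasDerivAt (fun t => w * f t * Real.cos (w * t) - deriv f t * Real.sin (w * t)) _ t :=
      e1
    exact e2.congr_deriv (by ring)
  have V : ∀ t, HasDerivAt (fun t => w * f t * Real.sin (w * t) + deriv f t * Real.cos (w * t))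
      ((deriv (deriv f) t + w ^ 2 * f t) * Real.cos (w * t)) t := by
    intro t
    have hw : HasDerivAt (fun t : ℝ => w * t) w t := by
      simpa using (hasDerivAt_id t).const_mul w
    have e1 := (((hd0 t).hasDerivAt.const_mul w).mul hw.sin).add ((hd1 t).hasDerivAt.mul hw.cos)
    have e2 : HasDerivAt (fun t => w * f t * Real.sin (w * t) + deriv f t * Real.cos (w * t)) _ t :=
      e1
    exact e2.congr_deriv (by ring)
  have const : ∀ g g' : ℝ → ℝ, (∀ t, HasDerivAt g (g' t) t) → (∀ t ∈ Ioo 0 T, g' t = 0) →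
      ∀ t ∈ Icc 0 T, g t = g 0 := by
    intro g g' hg hg' t ht
    rcases ht.1.eq_or_lt with h0 | h0
    · rw [← h0]
    · obtain ⟨ξ, hξ, hξ2⟩ := exists_deriv_eq_slope g h0
        (fun τ _ => (hg τ).continuousAt.continuousWithinAt)
        (fun τ _ => (hg τ).differentiableAt.differentiableWithinAt)
      rw [(hg ξ).deriv, hg' ξ ⟨hξ.1, hξ.2.trans_le ht.2⟩] at hξ2
      have : g t - g 0 = 0 := by
        have h3 := (div_eq_iff (sub_pos.2 h0).ne').1 hξ2.symm
        linarith
      linarith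
  intro t ht
  have u := const _ _ U (fun τ hτ => by rw [h τ hτ]; ring) t ht
  have v := const _ _ V (fun τ hτ => by rw [h τ hτ]; ring) t ht
  simp only [mul_zero, Real.cos_zero, Real.sin_zero, mul_one, sub_zero, zero_add] at u v
  have cs := Real.sin_sq_add_cos_sq (w * t)
  linear_combination (Real.cos (w * t)) * u + (Real.sin (w * t)) * v - (w * f t) * cs

theorem EData.solve (h : EData a b c T L) : ∃ ρ : ℝ, 0 < ρ ∧ L = 3 / ρ ^ 2 ∧ T = ρ * Real.pi / 3 ∧
    ∀ t ∈ Icc 0 T, a t = 2 * ρ * Real.sin (t / ρ) ∧ b t = 2 * ρ * Real.sin (Real.pi / 3 - t / ρ) ∧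
      c t = 2 * ρ * Real.sin (Real.pi / 3 + t / ρ) := by
  have hm := h.mirror
  have hT := h.hT
  -- the oscillator equations
  have hA : ∀ t ∈ Ioo 0 T, deriv (deriv a) t = -(L / 3) * a t := fun t ht => (h.osc t ht).1
  have hC : ∀ t ∈ Ioo 0 T, deriv (deriv c) t = -(L / 3) * c t := fun t ht => (h.osc t ht).2
  have hB : ∀ t ∈ Ioo 0 T, deriv (deriv b) t = -(L / 3) * b t := by
    intro t ht
    have htm : T - t ∈ Ioo 0 T := ⟨by linarith [ht.2], by linarith [ht.1]⟩
    have := (hm.osc (T - t) htm).1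
    rwa [deriv2_mirror, sub_sub_cancel] at this
  have hL := h.L_eq
  have hβ : 0 < b 0 := h.b0p
  have h3 : 0 < Real.sqrt 3 := Real.sqrt_pos.2 (by norm_num)
  have h33 : Real.sqrt 3 ^ 2 = 3 := Real.sq_sqrt (by norm_num)
  set ρ := b 0 / Real.sqrt 3 with hρ
  have hρ0 : 0 < ρ := div_pos hβ h3
  have hβρ : b 0 = Real.sqrt 3 * ρ := by rw [hρ]; field_simp
  have hL3 : L / 3 = (1 / ρ) ^ 2 := by
    rw [hL, hβρ]
    field_simp
    linear_combination -h33
  rw [hL3] at hA hB hC
  have sA := osc_solve h.cA hA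
  have sB := osc_solve h.cB hB
  have sC := osc_solve h.cC hC
  rw [h.a0, h.a1] at sA
  rw [h.b1] at sB
  rw [← h.b0] at sC
  have key : ∀ t, 1 / ρ * t = t / ρ := fun t => by ring
  have tA : ∀ t ∈ Icc 0 T, a t = 2 * ρ * Real.sin (t / ρ) := by
    intro t ht
    have := sA t ht
    rw [key] at this
    field_simp at this
    linarith
  have tB : ∀ t ∈ Icc 0 T, b t = b 0 * Real.cos (t / ρ) - ρ * deriv c 0 * Real.sin (t / ρ) := by
    intro t ht
    have := sB t ht
    rw [key] at this
    field_simp at this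
    linarith
  have tC : ∀ t ∈ Icc 0 T, c t = b 0 * Real.cos (t / ρ) + ρ * deriv c 0 * Real.sin (t / ρ) := by
    intro t ht
    have := sC t ht
    rw [key] at this
    field_simp at this
    linarith
  have hTm : T ∈ Icc 0 T := right_mem_Icc.2 hT.le
  have hsin : 0 < Real.sin (T / ρ) := by
    have h1 := h.aTp
    rw [tA T hTm] at h1
    exact pos_of_mul_pos_right h1 (by positivity)
  have hκ : deriv c 0 = 1 := by
    have h1 := tB T hTm
    have h2 := tC T hTm
    rw [h.bT] at h1
    rw [← h.aT, tA T hTm] at h2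
    have h4 : ρ * Real.sin (T / ρ) * (deriv c 0 - 1) = 0 := by linarith
    have h5 := (mul_eq_zero.1 h4).resolve_left (mul_pos hρ0 hsin).ne'
    linarith
  have uB : ∀ t ∈ Icc 0 T, b t = 2 * ρ * Real.sin (Real.pi / 3 - t / ρ) := by
    intro t ht
    rw [tB t ht, hκ, hβρ, Real.sin_sub, Real.sin_pi_div_three, Real.cos_pi_div_three]
    ring
  have uC : ∀ t ∈ Icc 0 T, c t = 2 * ρ * Real.sin (Real.pi / 3 + t / ρ) := by
    intro t ht
    rw [tC t ht, hκ, hβρ, Real.sin_add, Real.sin_pi_div_three, Real.cos_pi_div_three]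
    ring
  have hTρ : T / ρ = Real.pi / 3 := by
    have hpi := Real.pi_pos
    have hTρ0 : 0 < T / ρ := div_pos hT hρ0
    rcases lt_trichotomy (T / ρ) (Real.pi / 3) with h1 | h1 | h1
    · exfalso
      have h2 := uB T hTm
      rw [h.bT] at h2
      have h4 : 0 < Real.sin (Real.pi / 3 - T / ρ) :=
        Real.sin_pos_of_pos_of_lt_pi (by linarith) (by linarith)
      have : 0 < 2 * ρ * Real.sin (Real.pi / 3 - T / ρ) := by positivity
      linarith
    · exact h1
    · exfalso
      have h2 : ρ * (Real.pi / 3) ∈ Ioo 0 T := by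
        refine ⟨by positivity, ?_⟩
        rw [lt_div_iff₀ hρ0] at h1
        linarith
      have h4 := h.bp _ h2
      rw [uB _ ⟨h2.1.le, h2.2.le⟩, mul_div_cancel_left₀ _ hρ0.ne', sub_self, Real.sin_zero,
        mul_zero] at h4
      exact lt_irrefl _ h4
  refine ⟨ρ, hρ0, ?_, ?_, fun t ht => ⟨tA t ht, uB t ht, uC t ht⟩⟩
  · have : L = 3 * (1 / ρ) ^ 2 := by linarith
    rw [this]; ring
  · rw [div_eq_iff hρ0.ne'] at hTρ
    rw [hTρ]; ring

end Pool.Agent.H8S4
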