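import Pool.Agent.H8S4.Basic

set_option autoImplicit false

namespace Pool.Agent.H8S4

open Set Filter Topology

noncomputable section

/-- Cosine of the angle opposite to `a` in a triangle with sides `a`, `b`, `c`. -/
def cc (a b c : ℝ → ℝ) (t : ℝ) : ℝ := ((b t) ^ 2 + (c t) ^ 2 - (a t) ^ 2) / (2 * b t * c t)

/-- Curvature component. -/
def pp (b c x y z : ℝ → ℝ) (t : ℝ) : ℝ := (x t - y t * z t) / (b t * c t)

/-- First order form of the Einstein equations (half of them; `s = 1` or `s = -1`). -/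
structure XSys (s : ℝ) (a b c x y z : ℝ → ℝ) (T : ℝ) : Prop where
  ap : ∀ t ∈ Ioo 0 T, 0 < a t
  bp : ∀ t ∈ Ioo 0 T, 0 < b t
  cp : ∀ t ∈ Ioo 0 T, 0 < c t
  da : ∀ t ∈ Ioo 0 T, HasDerivAt a (s * (x t - cc a b c t)) t
  db : ∀ t ∈ Ioo 0 T, HasDerivAt b (s * (y t - cc b c a t)) t
  dc : ∀ t ∈ Ioo 0 T, HasDerivAt c (s * (z t - cc c a b t)) t
  dx : ∀ t ∈ Ioo 0 T, HasDerivAt x (-s * (pp b c x y z t * a t)) t
  dy : ∀ t ∈ Ioo 0 T, HasDerivAt y (-s * (pp c a y z x t * b t)) t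
  dz : ∀ t ∈ Ioo 0 T, HasDerivAt z (-s * (pp a b z x y t * c t)) t

theorem cc_comm (a b c : ℝ → ℝ) (t : ℝ) : cc a b c t = cc a c b t := by
  unfold cc; congr 1 <;> ring

theorem pp_comm (b c x y z : ℝ → ℝ) (t : ℝ) : pp b c x y z t = pp c b x z y t := by
  unfold pp; congr 1 <;> ring

variable {s : ℝ} {a b c x y z : ℝ → ℝ} {T : ℝ}

theorem XSys.rot (h : XSys s a b c x y z T) : XSys s b c a y z x T :=
  ⟨h.bp, h.cp, h.ap, h.db, h.dc, h.da, h.dy, h.dz, h.dx⟩

theorem XSys.swap (h : XSys s a b c x y z T) : XSys s a c b x z y T where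
  ap := h.ap
  bp := h.cp
  cp := h.bp
  da t ht := by rw [cc_comm]; exact h.da t ht
  db t ht := by rw [cc_comm]; exact h.dc t ht
  dc t ht := by rw [cc_comm]; exact h.db t ht
  dx t ht := by rw [pp_comm]; exact h.dx t ht
  dy t ht := by rw [pp_comm]; exact h.dz t ht
  dz t ht := by rw [pp_comm]; exact h.dy t ht

theorem XSys.dp (h : XSys s a b c x y z T) {t : ℝ} (ht : t ∈ Ioo 0 T) :
    HasDerivAt (pp b c x y z)
      (s * ((pp c a y z x t - pp b c x y z t) * (z t / c t) +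
        (pp a b z x y t - pp b c x y z t) * (y t / b t))) t := by
  have ha := (h.ap t ht).ne'
  have hb := (h.bp t ht).ne'
  have hc := (h.cp t ht).ne'
  have h1 := (h.dx t ht).sub ((h.dy t ht).mul (h.dz t ht))
  have h2 := (h.db t ht).mul (h.dc t ht)
  have h3 : HasDerivAt (pp b c x y z) _ t := h1.div h2 (mul_ne_zero hb hc)
  refine h3.congr_deriv ?_
  simp only [pp, cc, Pi.mul_apply, Pi.sub_apply]
  field_simp
  ring

/-- The sum of the three curvature components is constant. -/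
theorem XSys.dsum (h : XSys s a b c x y z T) {t : ℝ} (ht : t ∈ Ioo 0 T) :
    HasDerivAt (fun t => pp b c x y z t + pp c a y z x t + pp a b z x y t) 0 t := by
  have h1 := (h.dp ht).add (h.rot.dp ht)
  have h2 : HasDerivAt (fun t => pp b c x y z t + pp c a y z x t + pp a b z x y t) _ t :=
    h1.add (h.rot.rot.dp ht)
  refine h2.congr_deriv ?_
  ring

end

end Pool.Agent.H8S4
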